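import Pool.Agent.helper11.TX.Spec2

/-!
# Project TX, part 3 (MP_bf63dc_nt): a third (four clusters instead of five)

RULES as in `Pool.Agent.helper11.TX.Spec`.  The statements of parts 1 and 2 with `1/3` in place of `1/4` and
`6 ∣ W` in place of `30 ∣ W`.  All rows are independent of the theorem on four clusters (rows mk:*), which will
give `GRk (1/3) 6`.
-/

namespace Pool.Agent.helper11.TX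

open Finset Pool.Agent.helper85.FC

open Classical in
/-- `GR_stmt` with `κ`, `m` in place of `1/4`, `30`. -/
def GRk (κ : ℝ) (m : ℕ) : Prop := ∀ W : ℕ, 0 < W → m ∣ W → ∀ ε : ℝ, 0 < ε → ∃ K : ℕ,
  ∀ S : Finset (ℕ × ℤ), (∀ v ∈ S, Vx W v) →
  (κ - ε) * (#S : ℝ) ^ 2 - K * #S ≤ (#{p ∈ S ×ˢ S | p.1 ≠ p.2 ∧ Rl p.1 p.2} : ℝ)

/-- Row PRG (medium).  The proof of PR (Pool/Agent/helper60/TX/PR.lean). -/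
def PRG_stmt : Prop := ∀ (κ : ℝ) (m : ℕ), 0 ≤ κ → κ ≤ 1 → GRk κ m → PRk κ m

/-- Row VLS (short, medium).  As `VL` (Pool/Agent/helper49/TX/VL.lean): the primes `l ∤ W` are `≥ 5`, so
`Y ≥ H_N (1 - ∑_{n ≥ 5} 1/n^2) ≥ (7/9) H_N` (`∑_{n ≥ 5} 1/n^2 ≤ 2/9`: `1/25 + 1/36 + 1/49 + 1/64 + 1/8 = 0.2288`;
only odd `n`: `1/25 + 1/49 + 1/81 + ... ≤ 1/25 + 1/49 + 1/2 * 1/8 = 0.123` is enough), `Y^2 ≤ ZZ N * VW W N`, `ZZ N ≤ 2`, and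
`(1 - 0.123)^2/2 ≥ 1/4`. -/
def VLS_stmt : Prop := ∀ W N : ℕ, 0 < W → 6 ∣ W → 0 < N → Real.log N ^ 2 / 4 ≤ VW W N

/-- The conclusion of MQ for all `W` divisible by `m`. -/
def MQk (m : ℕ) : Prop := ∀ (W : ℕ) (η : ℝ), 0 < W → m ∣ W → 0 ≤ η → η < 1 → (∀ G, T3 W G ≤ η / 2) →
  ∀ δ : ℝ, 0 < δ → ∃ N₀ : ℕ, ∀ N : ℕ, N₀ ≤ N →
  (1 - η - δ) * ZZ N * PW W ^ 2 * VW W N ≤ mm W N ^ 2

/-- Row MQS.  The proof of MQ (Pool/Agent/helper11/TX/MQ.lean) with VLS in place of VL. -/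
def MQS_stmt : Prop := MQk 6

/-- The conclusion of MN with `κ`, `m`. -/
def MNk (κ : ℝ) (m : ℕ) : Prop := ∀ (W : ℕ) (η : ℝ), 0 < W → m ∣ W → 0 ≤ η → η < 1 →
  (∀ G, T3 W G ≤ η / 2) → ∀ ε : ℝ, 0 < ε → ∃ N₀ : ℕ, ∀ N : ℕ, N₀ ≤ N → ∃ M₀ : ℕ,
  ∀ M : ℕ, M₀ ≤ M → ∀ u : ℤ,
  (κ - ε) * (1 - η) * M * PW W ^ 2 * VW W N ≤ Sm TrueCase (Lam W) N M u

/-- Row MNG (medium).  `S = Icc 1 N`, `h s = 1/s` in `NGk`: `PW W * ∑ h s yy W s = mm W N`, and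
`GG W (Icc 1 N) h M u ≤ ZZ N * Sm TrueCase (Lam W) N M u` by GC (`s = g b`, `t = g a`, weight `1/(g^2 a b) * 1/b`,
`a, b ≤ N/g ≤ N`).  With `MQk`: `(κ - ε') M (1 - η - δ) ZZ PW^2 VW ≤ ZZ * Sm`, and `ZZ N > 0`.  Choose `δ`, `ε'` with
`(κ - ε') (1 - η - δ) ≥ (κ - ε) (1 - η)`. -/
def MNG_stmt : Prop := ∀ (κ : ℝ) (m : ℕ), 0 ≤ κ → κ ≤ 1 → NGk κ m → MQk m → MNk κ m

/-- Row TYS (medium).  As `TY` (Pool/Agent/helper28/TX/TY.lean), only the prime 3: let `V₀` be the part of `VW 6 N` with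
`3 ∤ a b`, `V₁` the rest: `VW 2 N = V₀ + (2/3) V₁ = V - V₁/3`, `V₁ → V/2`. -/
def TYS_stmt : Prop := ∀ ε : ℝ, 0 < ε → ∃ N₀ : ℕ, ∀ N : ℕ, N₀ ≤ N → VW 2 N ≤ (5 / 6 + ε) * VW 6 N

/-- Row NUS (short).  The primes not dividing 6 are `≥ 5`: `1/125 + 1/343 + 1/1331 + 1/2197 + 1/4913 + 1/6859 +
1/12167 + 1/1568 ≤ 1/75`, `∑_{n ≥ 29} 1/n^3 ≤ 1/(2 * 28^2)`. -/
def NUS_stmt : Prop := PW 6 = 1 / 3 ∧ (∀ a b c, Adm a b c → Lam 6 a b c ≤ 1 / 3) ∧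
  ∀ G, T3 6 G ≤ 1 / 75

/-- The final statement with `κ` and the count `r`. -/
def FNk (κ r : ℝ) : Prop := ∀ ε : ℝ, 0 < ε → ∃ N₀ : ℕ, ∀ N : ℕ, N₀ ≤ N → ∃ M₀ : ℕ, ∀ M : ℕ, M₀ ≤ M →
  (∀ u : ℤ, |u| ≤ M → (κ - ε) * Sm Adm SS N M u ≤ Sm TrueCase SS N M u) ∧
  (∀ u : ℤ, r * Sm Adm (fun _ _ _ => 1) N M u ≤ Sm TrueCase (fun _ _ _ => 1) N M u)

/-- Row FNS (medium).  As FN (Pool/Agent/helper11/TX/FN.lean): `3 * (1/3) * (73/75) * (1/9) / ((1/2) (5/6)) = 0.25955 > 1/4`. -/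
def FNS_stmt : Prop := MNk (1 / 3) 6 → FNk (1 / 3) (1 / 4)

open Classical in
/-- Row POS (short).  `S = {1}`, `W = 6`: `(1/3 - ε') (1/9) M ≤ ∑ Lam 6 1 1 c ≤ (1/3) #{c}`. -/
def POS_stmt : Prop := NGk (1 / 3) 6 → ∀ ε : ℝ, 0 < ε → ∃ M₀ : ℕ, ∀ M : ℕ, M₀ ≤ M → ∀ u : ℤ,
  (1 / 9 - ε) * M ≤ (#{c ∈ Ioc u (u + M) | TrueCase 1 1 c} : ℝ)

/-- Row NYS (short).  As `NYx` (Pool/Agent/helper11/TX/NYx.lean) with the primes `≥ 5` and the first part of NT: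
`(1/6) (22/25) = 0.1466`. -/
def NYS_stmt : Prop := ∃ N₀ : ℕ, ∀ N : ℕ, N₀ ≤ N →
  73 / 500 * (N : ℝ) ^ 2 ≤ ∑ s ∈ S6 N, (s : ℝ) * yy 6 s

open Classical in
/-- Row NBS (medium).  As NB (Pool/Agent/helper5/TX/NB.lean) with `W = 6`:
`(3/N) (1/9) M' N^4 ((1/3) 0.146^2 - 1/299)`, about `N^2 (N M')/798`. -/
def NBS_stmt : Prop := NGk (1 / 3) 6 → ∃ N₀ : ℕ, ∀ N : ℕ, N₀ ≤ N → ∃ M₀ : ℕ, ∀ M : ℕ, M₀ ≤ M →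
  (N : ℝ) ^ 2 * M / 850 ≤
    (#{t ∈ Icc 1 N ×ˢ Icc 1 N ×ˢ Icc 1 M | TrueCase t.1 t.2.1 (t.2.2 : ℤ)} : ℝ) ∧
  (N : ℝ) ^ 2 * M / 850 ≤
    (#{t ∈ Icc 1 N ×ˢ Icc 1 N ×ˢ Icc 1 M | TrueCase t.1 t.2.1 (-(t.2.2 : ℤ))} : ℝ)

end Pool.Agent.helper11.TX
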