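import Pool.Agent.helper11.TX.Spec

/-!
# TX (MP_bf63dc_nt): the mass of the vertices against the mass of the coprime pairs (row MQ)
-/

namespace Pool.Agent.helper11.TX

open Finset

/-! ### the function `yy` -/

theorem MQ_fac {l : ℕ} (hl : l.Prime) : 0 < 1 - 1 / (l : ℝ) ∧ 1 - 1 / (l : ℝ) ≤ 1 := by
  have hl2 : (2 : ℝ) ≤ l := by exact_mod_cast hl.two_le
  have h1 : 1 / (l : ℝ) ≤ 1 / 2 := one_div_le_one_div_of_le (by norm_num) hl2
  have h2 : 0 ≤ 1 / (l : ℝ) := by positivity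
  exact ⟨by linarith, by linarith⟩

theorem MQ_yy_pos (W n : ℕ) : 0 < yy W n := by
  unfold yy
  exact prod_pos fun l hl => (MQ_fac (Nat.prime_of_mem_primeFactors (mem_filter.1 hl).1)).1

theorem MQ_yy_le (W n : ℕ) : yy W n ≤ 1 := by
  unfold yy
  exact prod_le_one
    (fun l hl => (MQ_fac (Nat.prime_of_mem_primeFactors (mem_filter.1 hl).1)).1.le)
    (fun l hl => (MQ_fac (Nat.prime_of_mem_primeFactors (mem_filter.1 hl).1)).2)

theorem MQ_yy_mul_le (W : ℕ) {n m : ℕ} (hn : n ≠ 0) (hm : m ≠ 0) :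
    yy W n * yy W m ≤ yy W (n * m) := by
  unfold yy
  rw [Nat.primeFactors_mul hn hm, filter_union, ← prod_union_inter]
  refine mul_le_of_le_one_right (prod_nonneg fun l hl => ?_) (prod_le_one (fun l hl => ?_)
    fun l hl => ?_)
  · have : l.Prime := by
      rcases mem_union.1 hl with h | h
      · exact Nat.prime_of_mem_primeFactors (mem_filter.1 h).1
      · exact Nat.prime_of_mem_primeFactors (mem_filter.1 h).1
    exact (MQ_fac this).1.le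
  · exact (MQ_fac (Nat.prime_of_mem_primeFactors (mem_filter.1 (mem_inter.1 hl).1).1)).1.le
  · exact (MQ_fac (Nat.prime_of_mem_primeFactors (mem_filter.1 (mem_inter.1 hl).1).1)).2

theorem MQ_yy_mul (W : ℕ) {n m : ℕ} (h : Nat.Coprime n m) (hn : n ≠ 0) (hm : m ≠ 0) :
    yy W (n * m) = yy W n * yy W m := by
  unfold yy
  rw [Nat.primeFactors_mul hn hm, filter_union, prod_union]
  exact disjoint_filter_filter h.disjoint_primeFactors

theorem MQ_prod_ge {s : Finset ℕ} (hs : ∀ l ∈ s, l.Prime) :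
    1 - ∑ l ∈ s, 1 / (l : ℝ) ≤ ∏ l ∈ s, (1 - 1 / (l : ℝ)) := by
  classical
  induction s using Finset.induction_on with
  | empty => simp
  | insert a s ha ih =>
    rw [sum_insert ha, prod_insert ha]
    have h1 := ih fun l hl => hs l (mem_insert_of_mem hl)
    have h2 := MQ_fac (hs a (mem_insert_self a s))
    have h3 : 0 ≤ ∏ l ∈ s, (1 - 1 / (l : ℝ)) :=
      prod_nonneg fun l hl => (MQ_fac (hs l (mem_insert_of_mem hl))).1.le
    have h4 : ∏ l ∈ s, (1 - 1 / (l : ℝ)) ≤ 1 :=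
      prod_le_one (fun l hl => (MQ_fac (hs l (mem_insert_of_mem hl))).1.le)
        fun l hl => (MQ_fac (hs l (mem_insert_of_mem hl))).2
    have h5 : 0 ≤ 1 / (a : ℝ) := by positivity
    nlinarith

theorem MQ_yy_sq (W n : ℕ) :
    1 - 2 * ∑ l ∈ n.primeFactors with ¬ l ∣ W, 1 / (l : ℝ) ≤ yy W n ^ 2 := by
  have h1 := MQ_prod_ge (s := n.primeFactors.filter fun l => ¬ l ∣ W)
    fun l hl => Nat.prime_of_mem_primeFactors (mem_filter.1 hl).1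
  have h2 := (MQ_yy_pos W n).le
  change 1 - ∑ l ∈ n.primeFactors with ¬ l ∣ W, 1 / (l : ℝ) ≤ yy W n at h1
  nlinarith [sq_nonneg (1 - yy W n)]

/-! ### the sums over `g` -/

theorem MQ_ZZ_nonneg (N : ℕ) : 0 ≤ ZZ N := by
  unfold ZZ
  exact sum_nonneg fun g _ => by positivity

theorem MQ_ZZ_one {G : ℕ} (hG : 1 ≤ G) : 1 ≤ ZZ G := by
  unfold ZZ
  have h1 : (1 : ℝ) / ((1 : ℕ) : ℝ) ^ 2 ≤ ∑ g ∈ Icc 1 G, 1 / (g : ℝ) ^ 2 :=
    single_le_sum (f := fun g : ℕ => 1 / (g : ℝ) ^ 2) (fun g _ => by positivity)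
      (mem_Icc.2 ⟨le_rfl, hG⟩)
  simpa using h1

/-- `∑_{g ≤ N} 1/g² ≤ ∑_{g ≤ G} 1/g² + 1/G - 1/N`. -/
theorem MQ_ZZ_tail {G : ℕ} (hG : 1 ≤ G) : ∀ N : ℕ, G ≤ N → ZZ N ≤ ZZ G + 1 / G - 1 / N := by
  intro N hN
  induction N, hN using Nat.le_induction with
  | base => simp
  | succ n hn ih =>
    have h1 : ZZ (n + 1) = ZZ n + 1 / ((n : ℝ) + 1) ^ 2 := by
      unfold ZZ
      rw [sum_Icc_succ_top (by omega)]
      push_cast
      rfl
    rw [h1]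
    have hn0 : (0 : ℝ) < n := by
      have : 1 ≤ n := hG.trans hn
      exact_mod_cast this
    have h2 : 1 / ((n : ℝ) + 1) ^ 2 ≤ 1 / n - 1 / (n + 1) := by
      rw [div_sub_div _ _ hn0.ne' (by positivity), div_le_div_iff₀ (by positivity) (by positivity)]
      nlinarith
    push_cast
    linarith

theorem MQ_ZZ_le {G N : ℕ} (hG : 1 ≤ G) (hN : G ≤ N) : ZZ N ≤ (1 + 1 / (G : ℝ)) * ZZ G := by
  have h1 := MQ_ZZ_tail hG N hN
  have h2 := MQ_ZZ_one hG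
  have h3 : (0 : ℝ) ≤ 1 / G := by positivity
  have h4 : (0 : ℝ) ≤ 1 / N := by positivity
  nlinarith

/-- the sum of `1/g^2` over the multiples of `l`. -/
theorem MQ_mult {l G : ℕ} (hl : 0 < l) :
    ∑ g ∈ Icc 1 G with l ∣ g, 1 / (g : ℝ) ^ 2 ≤ 1 / (l : ℝ) ^ 2 * ZZ G := by
  have h1 : ∑ g ∈ Icc 1 G with l ∣ g, 1 / (g : ℝ) ^ 2 ≤ ∑ k ∈ Icc 1 G, 1 / ((l * k : ℕ) : ℝ) ^ 2 := by
    have hsub : (Icc 1 G).filter (fun g => l ∣ g) ⊆ (Icc 1 G).image (fun k => l * k) := by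
      intro g hg
      obtain ⟨hg1, k, rfl⟩ := mem_filter.1 hg
      rw [mem_Icc] at hg1
      refine mem_image.2 ⟨k, mem_Icc.2 ⟨?_, ?_⟩, rfl⟩
      · rcases Nat.eq_zero_or_pos k with h | h
        · subst h; omega
        · exact h
      · exact (Nat.le_mul_of_pos_left k hl).trans hg1.2
    refine (sum_le_sum_of_subset_of_nonneg hsub fun g _ _ => by positivity).trans (le_of_eq ?_)
    rw [sum_image]
    intro x _ y _ hxy
    exact Nat.eq_of_mul_eq_mul_left hl hxy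
  refine h1.trans (le_of_eq ?_)
  unfold ZZ
  rw [mul_sum]
  refine sum_congr rfl fun k _ => ?_
  push_cast
  rw [mul_pow, one_div, one_div, one_div, mul_inv]

/-- `∑_{g ≤ G} (yy W g)²/g² ≥ (1 - 2 T3) ZZ G`. -/
theorem MQ_YG (W G : ℕ) : (1 - 2 * T3 W G) * ZZ G ≤ ∑ g ∈ Icc 1 G, yy W g ^ 2 / (g : ℝ) ^ 2 := by
  have h1 : ∑ g ∈ Icc 1 G, (1 - 2 * ∑ l ∈ g.primeFactors with ¬ l ∣ W, 1 / (l : ℝ)) / (g : ℝ) ^ 2 ≤
      ∑ g ∈ Icc 1 G, yy W g ^ 2 / (g : ℝ) ^ 2 :=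
    sum_le_sum fun g _ => div_le_div_of_nonneg_right (MQ_yy_sq W g) (by positivity)
  refine le_trans ?_ h1
  have h2 : ∑ g ∈ Icc 1 G, (1 - 2 * ∑ l ∈ g.primeFactors with ¬ l ∣ W, 1 / (l : ℝ)) / (g : ℝ) ^ 2 =
      ZZ G - 2 * ∑ g ∈ Icc 1 G, ∑ l ∈ g.primeFactors with ¬ l ∣ W, 1 / (l : ℝ) / (g : ℝ) ^ 2 := by
    unfold ZZ
    rw [mul_sum, ← sum_sub_distrib]
    refine sum_congr rfl fun g _ => ?_
    rw [sub_div, ← sum_div]
    ring
  rw [h2]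
  have h3 : ∑ g ∈ Icc 1 G, ∑ l ∈ g.primeFactors with ¬ l ∣ W, 1 / (l : ℝ) / (g : ℝ) ^ 2 =
      ∑ l ∈ Icc 1 G with l.Prime ∧ ¬ l ∣ W, ∑ g ∈ Icc 1 G with l ∣ g, 1 / (l : ℝ) / (g : ℝ) ^ 2 := by
    refine sum_comm' fun g l => ?_
    simp only [mem_Icc, mem_filter, Nat.mem_primeFactors]
    constructor
    · rintro ⟨⟨hg1, hg2⟩, ⟨hl, hd, hg0⟩, hW⟩
      exact ⟨⟨⟨hg1, hg2⟩, hd⟩, ⟨hl.one_lt.le, (Nat.le_of_dvd hg1 hd).trans hg2⟩, hl, hW⟩
    · rintro ⟨⟨⟨hg1, hg2⟩, hd⟩, _, hl, hW⟩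
      exact ⟨⟨hg1, hg2⟩, ⟨hl, hd, by omega⟩, hW⟩
  have h4 : ∑ l ∈ Icc 1 G with l.Prime ∧ ¬ l ∣ W, ∑ g ∈ Icc 1 G with l ∣ g,
      1 / (l : ℝ) / (g : ℝ) ^ 2 ≤ T3 W G * ZZ G := by
    unfold T3
    rw [sum_mul]
    refine sum_le_sum fun l hl => ?_
    have hl0 : 0 < l := (mem_filter.1 hl).2.1.pos
    have h5 : ∑ g ∈ Icc 1 G with l ∣ g, 1 / (l : ℝ) / (g : ℝ) ^ 2 =
        1 / (l : ℝ) * ∑ g ∈ Icc 1 G with l ∣ g, 1 / (g : ℝ) ^ 2 := by
      rw [mul_sum]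
      exact sum_congr rfl fun g _ => by ring
    rw [h5]
    refine (mul_le_mul_of_nonneg_left (MQ_mult hl0) (by positivity)).trans (le_of_eq ?_)
    have hl' : (l : ℝ) ≠ 0 := by exact_mod_cast hl0.ne'
    field_simp
  rw [h3]
  nlinarith

/-! ### harmonic sums -/

/-- the harmonic sum. -/
noncomputable def MQ_H (n : ℕ) : ℝ := ∑ i ∈ Icc 1 n, 1 / (i : ℝ)

theorem MQ_H_eq (n : ℕ) : MQ_H n = (harmonic n : ℝ) := by
  unfold MQ_H
  rw [harmonic_eq_sum_Icc]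
  push_cast
  exact sum_congr rfl fun i _ => one_div _

theorem MQ_H_le (n : ℕ) : MQ_H n ≤ 1 + Real.log n := by
  rw [MQ_H_eq]; exact harmonic_le_one_add_log n

theorem MQ_H_ge (n : ℕ) : Real.log (n + 1) ≤ MQ_H n := by
  rw [MQ_H_eq]; exact_mod_cast log_add_one_le_harmonic n

theorem MQ_H_diff {G N : ℕ} (hG : 1 ≤ G) (hN : G ≤ N) : MQ_H N - MQ_H (N / G) ≤ 1 + Real.log G := by
  have h1 := MQ_H_le N
  have h2 := MQ_H_ge (N / G)
  have hG0 : (0 : ℝ) < G := by exact_mod_cast hG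
  have hN0 : (0 : ℝ) < N := by exact_mod_cast hG.trans hN
  have h3 : Real.log N - Real.log G ≤ Real.log ((N / G : ℕ) + 1) := by
    rw [← Real.log_div hN0.ne' hG0.ne']
    refine Real.log_le_log (by positivity) ?_
    rw [div_le_iff₀ hG0]
    have h4 : N < (N / G + 1) * G := by
      have := Nat.lt_mul_div_succ N (show 0 < G by omega)
      rw [mul_comm] at this
      exact this
    exact_mod_cast h4.le
  linarith

/-! ### squares -/

theorem MQ_split (f : ℕ → ℝ) {K N : ℕ} (h : K ≤ N) :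
    ∑ i ∈ Icc 1 N, f i = ∑ i ∈ Icc 1 K, f i + ∑ i ∈ Ioc K N, f i := by
  have h1 : ∀ n : ℕ, Icc 1 n = Ioc 0 n := fun n => rfl
  rw [h1, h1, sum_Ioc_consecutive f (Nat.zero_le K) h]

theorem MQ_square (φ : ℕ → ℕ → ℝ)
    (h1 : ∀ a b, φ a b ≤ 1 / (a : ℝ) * (1 / (b : ℝ))) {K N : ℕ} (h : K ≤ N) :
    ∑ a ∈ Icc 1 N, ∑ b ∈ Icc 1 N, φ a b ≤ ∑ a ∈ Icc 1 K, ∑ b ∈ Icc 1 K, φ a b +
      2 * MQ_H N * (MQ_H N - MQ_H K) := by
  have hH : MQ_H N - MQ_H K = ∑ i ∈ Ioc K N, 1 / (i : ℝ) := by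
    unfold MQ_H
    rw [MQ_split _ h]; ring
  have hHK : MQ_H K ≤ MQ_H N := by
    have : 0 ≤ MQ_H N - MQ_H K := by
      rw [hH]; exact sum_nonneg fun i _ => by positivity
    linarith
  have hD : 0 ≤ MQ_H N - MQ_H K := by linarith
  rw [MQ_split (fun a => ∑ b ∈ Icc 1 N, φ a b) h]
  have h2 : ∑ a ∈ Icc 1 K, ∑ b ∈ Icc 1 N, φ a b = ∑ a ∈ Icc 1 K, ∑ b ∈ Icc 1 K, φ a b +
      ∑ a ∈ Icc 1 K, ∑ b ∈ Ioc K N, φ a b := by
    rw [← sum_add_distrib]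
    exact sum_congr rfl fun a _ => MQ_split _ h
  have h3 : ∑ a ∈ Icc 1 K, ∑ b ∈ Ioc K N, φ a b ≤ MQ_H K * (MQ_H N - MQ_H K) := by
    rw [hH]
    unfold MQ_H
    rw [sum_mul_sum]
    exact sum_le_sum fun a _ => sum_le_sum fun b _ => h1 a b
  have h4 : ∑ a ∈ Ioc K N, ∑ b ∈ Icc 1 N, φ a b ≤ (MQ_H N - MQ_H K) * MQ_H N := by
    rw [hH]
    unfold MQ_H
    rw [sum_mul_sum]
    exact sum_le_sum fun a _ => sum_le_sum fun b _ => h1 a b
  rw [h2]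
  nlinarith

theorem MQ_VW (W : ℕ) {G N : ℕ} (hG : 1 ≤ G) (hN : G ≤ N) :
    VW W N ≤ VW W (N / G) + 2 * (1 + Real.log N) * (1 + Real.log G) := by
  have h1 : ∀ n : ℕ, VW W n = ∑ a ∈ Icc 1 n, ∑ b ∈ Icc 1 n,
      if Nat.Coprime a b then yy W (a * b) / ((a : ℝ) * b) else 0 := by
    intro n
    unfold VW
    exact sum_congr rfl fun a _ => sum_filter _ _
  rw [h1, h1]
  have h2 := MQ_square (fun a b => if Nat.Coprime a b then yy W (a * b) / ((a : ℝ) * b) else 0)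
    (fun a b => by
      have h3 : 1 / (a : ℝ) * (1 / (b : ℝ)) = 1 / ((a : ℝ) * b) := by
        rw [one_div, one_div, one_div, mul_inv]
      rw [h3]
      split_ifs
      · exact div_le_div_of_nonneg_right (MQ_yy_le W _) (by positivity)
      · positivity) (Nat.div_le_self N G)
  refine h2.trans ?_
  have h3 := MQ_H_le N
  have h4 := MQ_H_diff hG hN
  have h5 : 0 ≤ MQ_H N := sum_nonneg fun i _ => by positivity
  have h6 : 0 ≤ 1 + Real.log (G : ℝ) := by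
    have := Real.log_natCast_nonneg G
    linarith
  have h7 : 2 * MQ_H N * (MQ_H N - MQ_H (N / G)) ≤ 2 * MQ_H N * (1 + Real.log G) :=
    mul_le_mul_of_nonneg_left h4 (by linarith)
  have h8 : 2 * MQ_H N * (1 + Real.log G) ≤ 2 * (1 + Real.log N) * (1 + Real.log G) :=
    mul_le_mul_of_nonneg_right (by linarith) h6
  linarith

/-- `Y² ≥ Y_G VW(N/G)`. -/
theorem MQ_Y (h1 : GC_stmt) (W : ℕ) {G N : ℕ} (hN : G ≤ N) :
    (∑ g ∈ Icc 1 G, yy W g ^ 2 / (g : ℝ) ^ 2) * VW W (N / G) ≤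
      (∑ α ∈ Icc 1 N, yy W α / (α : ℝ)) ^ 2 := by
  have h2 : (∑ α ∈ Icc 1 N, yy W α / (α : ℝ)) ^ 2 =
      ∑ α ∈ Icc 1 N, ∑ α' ∈ Icc 1 N, yy W α / (α : ℝ) * (yy W α' / (α' : ℝ)) := by
    rw [sq, sum_mul_sum]
  rw [h2, h1 N (fun α α' => yy W α / (α : ℝ) * (yy W α' / (α' : ℝ)))]
  have hnn : ∀ α α' : ℕ, 0 ≤ yy W α / (α : ℝ) * (yy W α' / (α' : ℝ)) := fun α α' =>
    mul_nonneg (div_nonneg (MQ_yy_pos W α).le (by positivity))
      (div_nonneg (MQ_yy_pos W α').le (by positivity))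
  have h3 : ∑ g ∈ Icc 1 G, ∑ a ∈ Icc 1 (N / g), ∑ b ∈ Icc 1 (N / g) with Nat.Coprime a b,
      yy W (g * a) / ((g * a : ℕ) : ℝ) * (yy W (g * b) / ((g * b : ℕ) : ℝ)) ≤
      ∑ g ∈ Icc 1 N, ∑ a ∈ Icc 1 (N / g), ∑ b ∈ Icc 1 (N / g) with Nat.Coprime a b,
      yy W (g * a) / ((g * a : ℕ) : ℝ) * (yy W (g * b) / ((g * b : ℕ) : ℝ)) :=
    sum_le_sum_of_subset_of_nonneg (Icc_subset_Icc le_rfl hN) fun g _ _ =>
      sum_nonneg fun a _ => sum_nonneg fun b _ => hnn _ _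
  refine le_trans ?_ h3
  rw [sum_mul]
  refine sum_le_sum fun g hg => ?_
  rw [mem_Icc] at hg
  have hK : N / G ≤ N / g := Nat.div_le_div_left hg.2 hg.1
  have h4 : ∑ a ∈ Icc 1 (N / G), ∑ b ∈ Icc 1 (N / G) with Nat.Coprime a b,
      yy W (g * a) / ((g * a : ℕ) : ℝ) * (yy W (g * b) / ((g * b : ℕ) : ℝ)) ≤
      ∑ a ∈ Icc 1 (N / g), ∑ b ∈ Icc 1 (N / g) with Nat.Coprime a b,
      yy W (g * a) / ((g * a : ℕ) : ℝ) * (yy W (g * b) / ((g * b : ℕ) : ℝ)) := by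
    refine (sum_le_sum fun a _ => ?_).trans (sum_le_sum_of_subset_of_nonneg
      (Icc_subset_Icc le_rfl hK) fun a _ _ => sum_nonneg fun b _ => hnn _ _)
    exact sum_le_sum_of_subset_of_nonneg (filter_subset_filter _ (Icc_subset_Icc le_rfl hK))
      fun b _ _ => hnn _ _
  refine le_trans ?_ h4
  unfold VW
  rw [mul_sum]
  refine sum_le_sum fun a ha => ?_
  rw [mul_sum]
  refine sum_le_sum fun b hb => ?_
  rw [mem_Icc] at ha
  rw [mem_filter, mem_Icc] at hb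
  have hg0 : g ≠ 0 := by omega
  have ha0 : a ≠ 0 := by omega
  have hb0 : b ≠ 0 := by omega
  have e1 := MQ_yy_mul_le W hg0 ha0
  have e2 := MQ_yy_mul_le W hg0 hb0
  have e3 := MQ_yy_mul W hb.2 ha0 hb0
  have p1 := MQ_yy_pos W g
  have p2 := MQ_yy_pos W a
  have p3 := MQ_yy_pos W b
  have hgR : (0 : ℝ) < g := by exact_mod_cast Nat.pos_of_ne_zero hg0
  have haR : (0 : ℝ) < a := by exact_mod_cast Nat.pos_of_ne_zero ha0
  have hbR : (0 : ℝ) < b := by exact_mod_cast Nat.pos_of_ne_zero hb0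
  have e4 : yy W g * yy W a * (yy W g * yy W b) ≤ yy W (g * a) * yy W (g * b) :=
    mul_le_mul e1 e2 (by positivity) (MQ_yy_pos W _).le
  rw [e3]
  push_cast
  have e5 : yy W g ^ 2 / (g : ℝ) ^ 2 * (yy W a * yy W b / ((a : ℝ) * b)) =
      yy W g * yy W a * (yy W g * yy W b) / ((g : ℝ) * a * (g * b)) := by
    field_simp
  have e6 : yy W (g * a) / ((g : ℝ) * a) * (yy W (g * b) / ((g : ℝ) * b)) =
      yy W (g * a) * yy W (g * b) / ((g : ℝ) * a * (g * b)) := by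
    field_simp
  rw [e5, e6]
  exact div_le_div_of_nonneg_right e4 (by positivity)

/-- **Row MQ.** -/
theorem MQ (h1 : GC_stmt) (h2 : VL_stmt) : MQ_stmt := by
  intro W η hW h30 hη hη1 hT δ hδ
  have hVn : ∀ N, 0 ≤ VW W N := fun N => by
    unfold VW
    exact sum_nonneg fun a _ => sum_nonneg fun b _ => div_nonneg (MQ_yy_pos W _).le (by positivity)
  have hPW : 0 ≤ PW W ^ 2 := sq_nonneg _
  by_cases hδ1 : 1 ≤ δ
  · refine ⟨0, fun N _ => ?_⟩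
    have h3 : 0 ≤ ZZ N * PW W ^ 2 * VW W N := by
      have := MQ_ZZ_nonneg N
      have := hVn N
      positivity
    have h4 : (1 - η - δ) * ZZ N * PW W ^ 2 * VW W N =
        (1 - η - δ) * (ZZ N * PW W ^ 2 * VW W N) := by ring
    rw [h4]
    exact (mul_nonpos_of_nonpos_of_nonneg (by linarith) h3).trans (sq_nonneg _)
  push Not at hδ1
  obtain ⟨G, hG⟩ := exists_nat_ge (2 / δ)
  have hG0 : (0 : ℝ) < G := lt_of_lt_of_le (by positivity) hG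
  have hG1 : 1 ≤ G := by exact_mod_cast hG0
  have hGδ : 1 / (G : ℝ) ≤ δ / 2 := by
    rw [div_le_iff₀ hG0]
    rw [div_le_iff₀ hδ] at hG
    linarith
  -- large `N`
  have hlim : ∀ᶠ N : ℕ in Filter.atTop,
      24 * (1 + Real.log G) / δ ≤ Real.log (N : ℝ) := by
    exact (Real.tendsto_log_atTop.comp tendsto_natCast_atTop_atTop).eventually_ge_atTop _
  have hlim1 : ∀ᶠ N : ℕ in Filter.atTop, 1 ≤ Real.log (N : ℝ) :=
    (Real.tendsto_log_atTop.comp tendsto_natCast_atTop_atTop).eventually_ge_atTop _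
  obtain ⟨N₀, hN₀⟩ := Filter.eventually_atTop.1 (hlim.and hlim1)
  refine ⟨max N₀ G, fun N hN => ?_⟩
  obtain ⟨hL, hL1⟩ := hN₀ N ((le_max_left _ _).trans hN)
  have hNG : G ≤ N := (le_max_right _ _).trans hN
  obtain ⟨hV1, hV2⟩ := h2 W N hW h30 (by omega)
  have hA := MQ_Y h1 W hNG
  have hB := MQ_YG W G
  have hC := MQ_ZZ_le hG1 hNG
  have hD := MQ_VW W hG1 hNG
  have hTG := hT G
  set Y := ∑ α ∈ Icc 1 N, yy W α / (α : ℝ) with hY
  set YG := ∑ g ∈ Icc 1 G, yy W g ^ 2 / (g : ℝ) ^ 2 with hYG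
  have hlG : 0 ≤ Real.log (G : ℝ) := Real.log_natCast_nonneg G
  -- `VW (N/G) ≥ (1 - δ/2) VW N`
  have hE : 2 * (1 + Real.log N) * (1 + Real.log G) ≤ δ / 2 * VW W N := by
    have e1 : 24 * (1 + Real.log G) ≤ δ * Real.log N := by
      rw [div_le_iff₀ hδ] at hL
      linarith
    have e2 : 2 * (1 + Real.log N) * (1 + Real.log G) ≤ 4 * Real.log N * (1 + Real.log G) :=
      mul_le_mul_of_nonneg_right (by linarith) (by linarith)
    have e3 : 4 * Real.log N * (1 + Real.log G) ≤ δ / 2 * (Real.log N ^ 2 / 3) := by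
      nlinarith
    have e4 : δ / 2 * (Real.log N ^ 2 / 3) ≤ δ / 2 * VW W N :=
      mul_le_mul_of_nonneg_left hV1 (by linarith)
    linarith
  have hF : (1 - δ / 2) * VW W N ≤ VW W (N / G) := by linarith
  have hZG := MQ_ZZ_one hG1
  have hG' : (1 - η) * ZZ G ≤ YG := by
    refine le_trans (mul_le_mul_of_nonneg_right (by linarith) (by linarith)) hB
  have hVN := hVn N
  have hH : (1 - η) * ZZ G * ((1 - δ / 2) * VW W N) ≤ Y ^ 2 := by
    refine le_trans (mul_le_mul hG' hF ?_ ?_) hA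
    · exact mul_nonneg (by linarith) hVN
    · exact sum_nonneg fun g _ => by positivity
  have hZN : ZZ N ≤ (1 + δ / 2) * ZZ G :=
    hC.trans (mul_le_mul_of_nonneg_right (by linarith) (by linarith))
  have hI : (1 - η) * (1 - δ / 2) * (ZZ N * VW W N) ≤ (1 + δ / 2) * Y ^ 2 := by
    have e1 : (1 - η) * (1 - δ / 2) * (ZZ N * VW W N) ≤
        (1 - η) * (1 - δ / 2) * (((1 + δ / 2) * ZZ G) * VW W N) :=
      mul_le_mul_of_nonneg_left (mul_le_mul_of_nonneg_right hZN hVN)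
        (mul_nonneg (by linarith) (by linarith))
    have e2 := mul_le_mul_of_nonneg_left hH (show (0 : ℝ) ≤ 1 + δ / 2 by linarith)
    nlinarith
  have hJ : (1 - η - δ) * (ZZ N * VW W N) ≤ Y ^ 2 := by
    have hP : 0 ≤ ZZ N * VW W N := mul_nonneg (MQ_ZZ_nonneg N) hVN
    have e1 : (1 - η - δ) * (1 + δ / 2) ≤ (1 - η) * (1 - δ / 2) := by nlinarith
    have e2 : (1 + δ / 2) * ((1 - η - δ) * (ZZ N * VW W N)) ≤ (1 + δ / 2) * Y ^ 2 := by
      refine le_trans ?_ hI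
      have := mul_le_mul_of_nonneg_right e1 hP
      linarith
    exact le_of_mul_le_mul_left e2 (by linarith)
  have hmm : mm W N = PW W * Y := rfl
  rw [hmm, mul_pow]
  have := mul_le_mul_of_nonneg_left hJ hPW
  linarith

end Pool.Agent.helper11.TX
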