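import Pool.Agent.helper11.TX.Spec

/-!
# TX (MP_bf63dc_nt): the final statement (row FN)
-/

namespace Pool.Agent.helper11.TX

open Finset Pool.Agent.helper85.FC

theorem FN_Sm_mono {P : ℕ → ℕ → ℤ → Prop} {G G' : ℕ → ℕ → ℤ → ℝ}
    (h : ∀ a b c, P a b c → G a b c ≤ G' a b c) (N M : ℕ) (u : ℤ) :
    Sm P G N M u ≤ Sm P G' N M u := by
  classical
  unfold Sm
  refine sum_le_sum fun a _ => sum_le_sum fun b _ => mul_le_mul_of_nonneg_left ?_ (by positivity)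
  exact sum_le_sum fun c hc => h a b c (mem_filter.1 hc).2

theorem FN_Sm_mul (P : ℕ → ℕ → ℤ → Prop) (G : ℕ → ℕ → ℤ → ℝ) (k : ℝ) (N M : ℕ) (u : ℤ) :
    Sm P (fun a b c => k * G a b c) N M u = k * Sm P G N M u := by
  classical
  unfold Sm
  rw [mul_sum]
  refine sum_congr rfl fun a _ => ?_
  rw [mul_sum]
  refine sum_congr rfl fun b _ => ?_
  rw [← mul_sum]
  ring

theorem FN_Sm_nonneg {P : ℕ → ℕ → ℤ → Prop} {G : ℕ → ℕ → ℤ → ℝ}
    (h : ∀ a b c, P a b c → 0 ≤ G a b c) (N M : ℕ) (u : ℤ) : 0 ≤ Sm P G N M u := by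
  classical
  unfold Sm
  refine sum_nonneg fun a _ => sum_nonneg fun b _ => mul_nonneg (by positivity) ?_
  exact sum_nonneg fun c hc => h a b c (mem_filter.1 hc).2

theorem FN_adm {a b : ℕ} {c : ℤ} (h : TrueCase a b c) : Adm a b c :=
  ⟨h.1, h.2.1, h.2.2.1, h.2.2.2.1, h.2.2.2.2.1, h.2.2.2.2.2.1, h.2.2.2.2.2.2.1⟩

theorem FN_SS_pos (a b : ℕ) (c : ℤ) : 0 < SS a b c := by
  unfold SS
  refine prod_pos fun l hl => ?_
  have h1 := mem_filter.1 hl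
  have h2 := (Nat.prime_of_mem_primeFactors h1.1).two_le
  have h3 : 3 ≤ l := by
    have := h1.2
    omega
  have h4 : (3 : ℝ) ≤ l := by exact_mod_cast h3
  exact div_pos (by linarith) (by linarith)

theorem FN_cW_pos (W : ℕ) : 0 < cW W := by
  unfold cW
  refine mul_pos (by norm_num) (prod_pos fun l hl => ?_)
  have h1 := mem_filter.1 hl
  have h2 := (Nat.prime_of_mem_primeFactors h1.1).two_le
  have h3 : 3 ≤ l := by
    have := h1.2
    omega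
  have h4 : (3 : ℝ) ≤ l := by exact_mod_cast h3
  have h5 : 2 / (l : ℝ) < 1 := by
    rw [div_lt_one (by linarith)]
    linarith
  linarith

theorem FN_Er_ge (w n : ℕ) (hw : 2 ≤ w) : 1 ≤ Er w n := by
  unfold Er
  refine Finset.one_le_prod fun l hl => ?_
  have h1 := (mem_filter.1 hl).2
  have h3 : 3 ≤ l := by omega
  have h4 : (3 : ℝ) ≤ l := by exact_mod_cast h3
  have h5 : 0 ≤ 1 / ((l : ℝ) - 2) := div_nonneg zero_le_one (by linarith)
  linarith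

theorem FN_Lam_nonneg (W a b : ℕ) (c : ℤ) : 0 ≤ Lam W a b c := by
  unfold Lam
  refine prod_nonneg fun l hl => ?_
  have hl2 : (2 : ℝ) ≤ l := by exact_mod_cast (Nat.prime_of_mem_primeFactors hl).two_le
  have hl0 : (0 : ℝ) < l := by linarith
  split_ifs
  · have : 1 / (l : ℝ) ≤ 1 := by
      rw [div_le_one hl0]; linarith
    linarith
  · have : 2 / (l : ℝ) ≤ 1 := by
      rw [div_le_one hl0]; linarith
    linarith

theorem FN_VW_nonneg (W N : ℕ) : 0 ≤ VW W N := by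
  unfold VW
  refine sum_nonneg fun a _ => sum_nonneg fun b _ => div_nonneg ?_ (by positivity)
  unfold yy
  refine prod_nonneg fun l hl => ?_
  have hl2 : (2 : ℝ) ≤ l := by
    exact_mod_cast (Nat.prime_of_mem_primeFactors (mem_filter.1 hl).1).two_le
  have : 1 / (l : ℝ) ≤ 1 := by
    rw [div_le_one (by linarith)]; linarith
  linarith

theorem FN_CL_le (h6 : CL_stmt) {w a b : ℕ} {c : ℤ} (hw : 2 ≤ w) (h : Adm a b c) :
    Lam (primorial w) a b c ≤ cW (primorial w) * SS a b c := by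
  rw [h6 w a b c hw h]
  have h1 := FN_Er_ge w a hw
  have h2 := FN_Er_ge w b hw
  have h3 := FN_Er_ge w c.natAbs hw
  have h4 : 1 ≤ Er w a * Er w b * Er w c.natAbs :=
    one_le_mul_of_one_le_of_one_le (one_le_mul_of_one_le_of_one_le h1 h2) h3
  exact le_mul_of_one_le_right (FN_Lam_nonneg _ _ _ _) h4

/-- First part. -/
theorem FN_one (h1 : MN_stmt) (h2 : HC_stmt) (h5 : NU_stmt) (h6 : CL_stmt) (ε : ℝ) (hε : 0 < ε) :
    ∃ N₀ : ℕ, ∀ N : ℕ, N₀ ≤ N → ∃ M₀ : ℕ, ∀ M : ℕ, M₀ ≤ M → ∀ u : ℤ, |u| ≤ M →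
      (1 / 4 - ε) * Sm Adm SS N M u ≤ Sm TrueCase SS N M u := by
  by_cases hε4 : 1 / 4 ≤ ε
  · refine ⟨0, fun N _ => ⟨0, fun M _ u _ => ?_⟩⟩
    have hA := FN_Sm_nonneg (P := Adm) (G := SS) (fun a b c _ => (FN_SS_pos a b c).le) N M u
    have hB := FN_Sm_nonneg (P := TrueCase) (G := SS) (fun a b c _ => (FN_SS_pos a b c).le) N M u
    exact (mul_nonpos_of_nonpos_of_nonneg (by linarith) hA).trans hB
  push Not at hε4
  obtain ⟨w₁, hw₁⟩ := h2 (ε / 4) (by linarith)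
  obtain ⟨w₂, hw₂⟩ := h5.2.2.2 (ε / 4) (by linarith)
  set w := max (max w₁ w₂) 2 with hw
  have hww₁ : w₁ ≤ w := (le_max_left _ _).trans (le_max_left _ _)
  have hww₂ : w₂ ≤ w := (le_max_right _ _).trans (le_max_left _ _)
  have hw2 : 2 ≤ w := le_max_right _ _
  obtain ⟨h30, hT⟩ := hw₂ w hww₂
  obtain ⟨N₁, hN₁⟩ := hw₁ w hww₁
  obtain ⟨N₂, hN₂⟩ := h1 (primorial w) (ε / 4) (primorial_pos w) h30 (by linarith) (by linarith) hT
    (ε / 4) (by linarith)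
  refine ⟨max N₁ N₂, fun N hN => ?_⟩
  obtain ⟨M₁, hM₁⟩ := hN₁ N ((le_max_left _ _).trans hN)
  obtain ⟨M₂, hM₂⟩ := hN₂ N ((le_max_right _ _).trans hN)
  refine ⟨max M₁ M₂, fun M hM u hu => ?_⟩
  have hHC := hM₁ M ((le_max_left _ _).trans hM) u hu
  have hMN := hM₂ M ((le_max_right _ _).trans hM) u
  set W := primorial w with hW
  have hc := FN_cW_pos W
  have hV := FN_VW_nonneg W N
  set T := (M : ℝ) * PW W ^ 2 * VW W N with hT'
  have hT0 : 0 ≤ T := by positivity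
  have hle : Sm TrueCase (Lam W) N M u ≤ cW W * Sm TrueCase SS N M u := by
    rw [← FN_Sm_mul]
    exact FN_Sm_mono (fun a b c h => FN_CL_le h6 hw2 (FN_adm h)) N M u
  have e1 : (1 / 4 - ε / 4) * (1 - ε / 4) * T ≤ cW W * Sm TrueCase SS N M u := by
    refine le_trans (le_of_eq ?_) (hMN.trans hle)
    rw [hT']; ring
  have e2 : cW W * Sm Adm SS N M u ≤ (1 + ε / 4) * T := by
    refine hHC.trans (le_of_eq ?_)
    rw [hT']; ring
  have e3 : (1 / 4 - ε) * (1 + ε / 4) ≤ (1 / 4 - ε / 4) * (1 - ε / 4) := by nlinarith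
  have e4 : cW W * ((1 / 4 - ε) * Sm Adm SS N M u) ≤ cW W * Sm TrueCase SS N M u := by
    calc cW W * ((1 / 4 - ε) * Sm Adm SS N M u) = (1 / 4 - ε) * (cW W * Sm Adm SS N M u) := by ring
      _ ≤ (1 / 4 - ε) * ((1 + ε / 4) * T) := mul_le_mul_of_nonneg_left e2 (by linarith)
      _ = (1 / 4 - ε) * (1 + ε / 4) * T := by ring
      _ ≤ (1 / 4 - ε / 4) * (1 - ε / 4) * T := mul_le_mul_of_nonneg_right e3 hT0
      _ ≤ _ := e1
  exact le_of_mul_le_mul_left e4 hc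

/-- Second part. -/
theorem FN_two (h1 : MN_stmt) (h3 : PA_stmt) (h4 : TY_stmt) (h5 : NU_stmt) :
    ∃ N₀ : ℕ, ∀ N : ℕ, N₀ ≤ N → ∃ M₀ : ℕ, ∀ M : ℕ, M₀ ≤ M → ∀ u : ℤ,
      1 / 6 * Sm Adm (fun _ _ _ => 1) N M u ≤ Sm TrueCase (fun _ _ _ => 1) N M u := by
  obtain ⟨hPW, hLam, hT3, -⟩ := h5
  obtain ⟨N₁, hN₁⟩ := h1 30 (1 / 50) (by norm_num) (dvd_refl 30) (by norm_num) (by norm_num)
    (fun G => (hT3 G).trans (by norm_num)) (1 / 1000) (by norm_num)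
  obtain ⟨N₂, hN₂⟩ := h4 (1 / 1000) (by norm_num)
  refine ⟨max N₁ N₂, fun N hN => ?_⟩
  obtain ⟨M₁, hM₁⟩ := hN₁ N ((le_max_left _ _).trans hN)
  have hTY := hN₂ N ((le_max_right _ _).trans hN)
  obtain ⟨M₂, hM₂⟩ := h3 N (1 / 1000) (by norm_num)
  refine ⟨max M₁ M₂, fun M hM u => ?_⟩
  have hMN := hM₁ M ((le_max_left _ _).trans hM) u
  have hPA := hM₂ M ((le_max_right _ _).trans hM) u
  have hle : 15 / 4 * Sm TrueCase (Lam 30) N M u ≤ Sm TrueCase (fun _ _ _ => 1) N M u := by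
    rw [← FN_Sm_mul]
    refine FN_Sm_mono (fun a b c h => ?_) N M u
    have := hLam a b c (FN_adm h)
    linarith
  rw [hPW] at hMN
  have hV := FN_VW_nonneg 30 N
  have hM0 : (0 : ℝ) ≤ M := Nat.cast_nonneg M
  have e1 : (1 + 1 / 1000 : ℝ) * (M / 2) * VW 2 N ≤
      (1 + 1 / 1000) * (M / 2) * ((7 / 9 + 1 / 1000) * VW 30 N) :=
    mul_le_mul_of_nonneg_left hTY (by positivity)
  have e2 : 0 ≤ (M : ℝ) * VW 30 N := mul_nonneg hM0 hV
  nlinarith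

/-- **Row FN.** -/
theorem FN (h1 : MN_stmt) (h2 : HC_stmt) (h3 : PA_stmt) (h4 : TY_stmt) (h5 : NU_stmt)
    (h6 : CL_stmt) : FN_stmt := by
  intro ε hε
  obtain ⟨N₁, hN₁⟩ := FN_one h1 h2 h5 h6 ε hε
  obtain ⟨N₂, hN₂⟩ := FN_two h1 h3 h4 h5
  refine ⟨max N₁ N₂, fun N hN => ?_⟩
  obtain ⟨M₁, hM₁⟩ := hN₁ N ((le_max_left _ _).trans hN)
  obtain ⟨M₂, hM₂⟩ := hN₂ N ((le_max_right _ _).trans hN)
  exact ⟨max M₁ M₂, fun M hM => ⟨fun u hu => hM₁ M ((le_max_left _ _).trans hM) u hu,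
    fun u => hM₂ M ((le_max_right _ _).trans hM) u⟩⟩

end Pool.Agent.helper11.TX
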