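import Pool.Agent.helper11.TX.All2
import Pool.Agent.helper11.TX.Spec3
import Pool.Agent.helper11.MK.GR
import Pool.Agent.helper92.TX.PRG
import Pool.Agent.helper76.TX.VLS
import Pool.Agent.helper71.TX.MQS
import Pool.Agent.helper29.TX.MNG
import Pool.Agent.helper32.TX.TYS
import Pool.Agent.helper96.TX.NUS
import Pool.Agent.helper83.TX.FNS
import Pool.Agent.helper57.TX.POS
import Pool.Agent.helper91.TX.NYS
import Pool.Agent.helper79.TX.NBS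

/-!
# TX part 3 (MP_bf63dc_nt): assembly, from two primes in four clusters
-/

namespace Pool.Agent.helper11.TX

open Finset Pool.Agent.helper85.FC Pool.Agent.helper11.MK

theorem NGk_of (h4 : CM4_stmt) : NGk (1 / 3) 6 :=
  NG (PG (CN CR)) (MG CR) (1 / 3) 6 (by norm_num) (by norm_num) (by norm_num)
    (PRG (1 / 3) 6 (by norm_num) (by norm_num) (Pool.Agent.helper11.MK.GR h4))

theorem DF_of (h4 : CM4_stmt) : DFk (1 / 3) :=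
  DF (HP (LP CR) CL MP) CL (1 / 3) 6 (by norm_num) (by norm_num) (by norm_num) (NGk_of h4)

theorem FN_of (h4 : CM4_stmt) : FNk (1 / 3) (1 / 4) :=
  FNS (HC (LA CR) CL EE MP (VL GC)) (PA CR) (TYS (VLS GC)) NU NUS CL
    (MNG GC (1 / 3) 6 (by norm_num) (by norm_num) (NGk_of h4) (MQS GC (VLS GC)))

open Classical in
theorem PO_of (h4 : CM4_stmt) : ∀ ε : ℝ, 0 < ε → ∃ M₀ : ℕ, ∀ M : ℕ, M₀ ≤ M → ∀ u : ℤ,
    (1 / 9 - ε) * M ≤ (#{c ∈ Ioc u (u + M) | TrueCase 1 1 c} : ℝ) :=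
  POS NUS (NGk_of h4)

open Classical in
theorem NB_of (h4 : CM4_stmt) : ∃ N₀ : ℕ, ∀ N : ℕ, N₀ ≤ N → ∃ M₀ : ℕ, ∀ M : ℕ, M₀ ≤ M →
    (N : ℝ) ^ 2 * M / 850 ≤
      (#{t ∈ Icc 1 N ×ˢ Icc 1 N ×ˢ Icc 1 M | TrueCase t.1 t.2.1 (t.2.2 : ℤ)} : ℝ) ∧
    (N : ℝ) ^ 2 * M / 850 ≤
      (#{t ∈ Icc 1 N ×ˢ Icc 1 N ×ˢ Icc 1 M | TrueCase t.1 t.2.1 (-(t.2.2 : ℤ))} : ℝ) :=
  NBS (LP CR) (NYS NS NT) (NP NS NT) NUS (NGk_of h4)

end Pool.Agent.helper11.TX
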