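import Pool.Agent.helper11.TX.Spec

/-!
# TX (MP_bf63dc_nt): the main theorem (row MN)
-/

namespace Pool.Agent.helper11.TX

open Finset Pool.Agent.helper85.FC

theorem MN_Lam_nonneg (W a b : ℕ) (c : ℤ) : 0 ≤ Lam W a b c := by
  unfold Lam
  refine prod_nonneg fun l hl => ?_
  have hl2 : (2 : ℝ) ≤ l := by exact_mod_cast (Nat.prime_of_mem_primeFactors hl).two_le
  have hl0 : (0 : ℝ) < l := by linarith
  split_ifs
  · have : 1 / (l : ℝ) ≤ 1 := by
      rw [div_le_one hl0]; linarith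
    linarith
  · have : 2 / (l : ℝ) ≤ 1 := by
      rw [div_le_one hl0]; linarith
    linarith

theorem MN_Sm_nonneg (W N M : ℕ) (u : ℤ) : 0 ≤ Sm TrueCase (Lam W) N M u := by
  classical
  unfold Sm
  refine sum_nonneg fun a _ => sum_nonneg fun b _ => mul_nonneg (by positivity) ?_
  exact sum_nonneg fun c _ => MN_Lam_nonneg W a b c

theorem MN_PW_pos (W : ℕ) : 0 < PW W := by
  unfold PW
  refine prod_pos fun l hl => ?_
  have hl2 : (2 : ℝ) ≤ l := by exact_mod_cast (Nat.prime_of_mem_primeFactors hl).two_le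
  have hl0 : (0 : ℝ) < l := by linarith
  have : 1 / (l : ℝ) ≤ 1 / 2 := one_div_le_one_div_of_le (by norm_num) hl2
  linarith

theorem MN_yy_pos (W n : ℕ) : 0 < yy W n := by
  unfold yy
  refine prod_pos fun l hl => ?_
  have hl2 : (2 : ℝ) ≤ l := by
    exact_mod_cast (Nat.prime_of_mem_primeFactors (mem_filter.1 hl).1).two_le
  have hl0 : (0 : ℝ) < l := by linarith
  have : 1 / (l : ℝ) ≤ 1 / 2 := one_div_le_one_div_of_le (by norm_num) hl2
  linarith

theorem MN_yy_le (W n : ℕ) : yy W n ≤ 1 := by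
  unfold yy
  refine prod_le_one (fun l hl => ?_) fun l hl => ?_
  · have hl2 : (2 : ℝ) ≤ l := by
      exact_mod_cast (Nat.prime_of_mem_primeFactors (mem_filter.1 hl).1).two_le
    have hl0 : (0 : ℝ) < l := by linarith
    have : 1 / (l : ℝ) ≤ 1 / 2 := one_div_le_one_div_of_le (by norm_num) hl2
    linarith
  · have : 0 ≤ 1 / (l : ℝ) := by positivity
    linarith

theorem MN_mm_pos (W N : ℕ) (hN : 1 ≤ N) : 0 < mm W N := by
  unfold mm
  refine mul_pos (MN_PW_pos W) (sum_pos (fun α hα => ?_) ⟨1, mem_Icc.2 ⟨le_rfl, hN⟩⟩)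
  have hα1 : (0 : ℝ) < α := by exact_mod_cast (mem_Icc.1 hα).1
  exact div_pos (MN_yy_pos W α) hα1

theorem MN_XX_mem {W N M : ℕ} {u : ℤ} {v : ℕ × ℤ} (h : v ∈ XX W N M u) :
    (1 ≤ v.1 ∧ v.1 ≤ N) ∧ v.2 ∈ Ioc u (u + M) ∧ Vx W v := by
  classical
  unfold XX at h
  rw [mem_filter, mem_product, mem_Icc] at h
  exact ⟨h.1.1, h.1.2, h.2⟩

theorem MN_XX_card (W N M : ℕ) (u : ℤ) : (#(XX W N M u) : ℝ) ≤ N * M := by
  classical
  unfold XX
  have h1 : #(((Icc 1 N) ×ˢ (Ioc u (u + M))).filter fun v => Vx W v) ≤ N * M := by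
    refine (card_filter_le _ _).trans ?_
    rw [card_product, Nat.card_Icc, Int.card_Ioc]
    have : (u + (M : ℤ) - u).toNat = M := by omega
    rw [this]
    simp
  exact_mod_cast h1

/-- The numerical contradiction. -/
theorem MN_num {ε m R κ s : ℝ} (hε : 0 < ε) (hε4 : ε < 1 / 4) (hm : 0 < m)
    (hR : κ * R * (1 - ε) ≤ m ^ 2) (hs : 0 < s)
    (hs1 : s ≤ ε / 8 * m) (hs2 : s ≤ ε / 8 * m ^ 2) (hs3 : s ≤ ε / 8)
    (h : (1 / 4 - ε / 2) * (m - s) ^ 2 ≤ (1 + s) * ((1 / 4 - ε) * (κ * R)) + s) : False := by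
  have hm2 : 0 < m ^ 2 := by positivity
  -- `(1/4 - ε) κ R ≤ (1/4 - 3ε/4) m²`
  have h1 : (1 / 4 - ε) * (κ * R) ≤ (1 / 4 - 3 * ε / 4) * m ^ 2 := by
    have h2 : κ * R ≤ m ^ 2 / (1 - ε) := by
      rw [le_div_iff₀ (by linarith)]; exact hR
    have h3 : (1 / 4 - ε) * (κ * R) ≤ (1 / 4 - ε) * (m ^ 2 / (1 - ε)) :=
      mul_le_mul_of_nonneg_left h2 (by linarith)
    have h4 : (1 / 4 - ε) * (m ^ 2 / (1 - ε)) ≤ (1 / 4 - 3 * ε / 4) * m ^ 2 := by
      have h5 : (1 / 4 - ε) * (m ^ 2 / (1 - ε)) = ((1 / 4 - ε) / (1 - ε)) * m ^ 2 := by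
        field_simp
      rw [h5]
      refine mul_le_mul_of_nonneg_right ?_ hm2.le
      rw [div_le_iff₀ (by linarith)]
      nlinarith
    exact h3.trans h4
  -- left side
  have h6 : (1 - ε / 4) * m ^ 2 ≤ (m - s) ^ 2 := by
    nlinarith [mul_le_mul_of_nonneg_left hs1 hm.le]
  have h7 : (1 / 4 - ε / 2) * ((1 - ε / 4) * m ^ 2) ≤ (1 / 4 - ε / 2) * (m - s) ^ 2 :=
    mul_le_mul_of_nonneg_left h6 (by linarith)
  have h8 : (1 + s) * ((1 / 4 - ε) * (κ * R)) ≤ (1 + ε / 8) * ((1 / 4 - 3 * ε / 4) * m ^ 2) := by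
    have h9 : (1 + s) * ((1 / 4 - ε) * (κ * R)) ≤ (1 + s) * ((1 / 4 - 3 * ε / 4) * m ^ 2) :=
      mul_le_mul_of_nonneg_left h1 (by linarith)
    have h10 : (0 : ℝ) ≤ (1 / 4 - 3 * ε / 4) * m ^ 2 := mul_nonneg (by linarith) hm2.le
    exact h9.trans (mul_le_mul_of_nonneg_right (by linarith) h10)
  have h11 : (1 / 4 - ε / 2) * ((1 - ε / 4) * m ^ 2) ≤
      (1 + ε / 8) * ((1 / 4 - 3 * ε / 4) * m ^ 2) + ε / 8 * m ^ 2 := by linarith
  have h12 : (1 / 4 - ε / 2) * (1 - ε / 4) - (1 + ε / 8) * (1 / 4 - 3 * ε / 4) - ε / 8 ≤ 0 := by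
    by_contra hcon
    push Not at hcon
    have := mul_pos hcon hm2
    nlinarith
  nlinarith

/-- **Row MN.** -/
theorem MN (h1 : PR_stmt) (h2 : PU_stmt) (h3 : MS_stmt) (h4 : MQ_stmt) : MN_stmt := by
  classical
  intro W η hW h30 hη hη1 hT ε hε
  by_cases hε4 : 1 / 4 ≤ ε
  · refine ⟨0, fun N _ => ⟨0, fun M _ u => ?_⟩⟩
    have hV : 0 ≤ VW W N := by
      unfold VW
      refine sum_nonneg fun a _ => sum_nonneg fun b _ => ?_
      exact div_nonneg (MN_yy_pos W _).le (by positivity)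
    have hA : 0 ≤ (1 - η) * M * PW W ^ 2 * VW W N := by
      have := MN_PW_pos W
      have h0 : 0 ≤ 1 - η := by linarith
      positivity
    have hB : (1 / 4 - ε) * (1 - η) * M * PW W ^ 2 * VW W N =
        (1 / 4 - ε) * ((1 - η) * M * PW W ^ 2 * VW W N) := by ring
    rw [hB]
    exact (mul_nonpos_of_nonpos_of_nonneg (by linarith) hA).trans (MN_Sm_nonneg W N M u)
  push Not at hε4
  obtain ⟨n, δ₁, hδ₁, hPR⟩ := h1 W hW h30 (ε / 2) (by linarith)
  have hκ : 0 < 1 - η := by linarith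
  obtain ⟨N₁, hMQ⟩ := h4 W η hW h30 hη hη1 hT ((1 - η) * ε) (by positivity)
  refine ⟨max N₁ 1, fun N hN => ?_⟩
  have hN1 : 1 ≤ N := (le_max_right _ _).trans hN
  have hNN₁ : N₁ ≤ N := (le_max_left _ _).trans hN
  have hm : 0 < mm W N := MN_mm_pos W N hN1
  set m := mm W N with hmdef
  have hR := hMQ N hNN₁
  set R := ZZ N * PW W ^ 2 * VW W N with hRdef
  have hR' : (1 - η) * R * (1 - ε) ≤ m ^ 2 := by
    calc (1 - η) * R * (1 - ε) = (1 - η - (1 - η) * ε) * ZZ N * PW W ^ 2 * VW W N := by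
          rw [hRdef]; ring
      _ ≤ m ^ 2 := hR
  set s := min (ε / 8 * m) (min (ε / 8 * m ^ 2) (ε / 8)) with hsdef
  have hs : 0 < s := by
    rw [hsdef]
    refine lt_min (by positivity) (lt_min (by positivity) (by positivity))
  have hs1 : s ≤ ε / 8 * m := min_le_left _ _
  have hs2 : s ≤ ε / 8 * m ^ 2 := (min_le_right _ _).trans (min_le_left _ _)
  have hs3 : s ≤ ε / 8 := (min_le_right _ _).trans (min_le_right _ _)
  have hms : 0 < m - s := by
    have : ε / 8 * m < m := by nlinarith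
    linarith
  obtain ⟨M₁₀, hPU⟩ := h2 W N hW h30 (by omega) s hs
  obtain ⟨M₀s, hMS⟩ := h3 W N hW s hs
  by_contra hcon
  push Not at hcon
  -- the bound of PU
  have hB : ∀ x : ℕ × ℤ, ∃ B : ℕ, M₁₀ ≤ x.1 → ∀ M₂ : ℕ, B ≤ M₂ → ∀ u₂ : ℤ,
      (∑ v ∈ XX W N x.1 x.2, ∑ w ∈ XX W N M₂ u₂, if v ≠ w ∧ Rl v w then 1 / ((v.1 : ℝ) * w.1) else 0)
      ≤ (1 + s) * ZZ N * x.1 * Sm TrueCase (Lam W) N M₂ u₂ + s * x.1 * M₂ := by
    intro x
    by_cases hx : M₁₀ ≤ x.1
    · obtain ⟨B, hB⟩ := hPU x.1 hx x.2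
      exact ⟨B, fun _ => hB⟩
    · exact ⟨0, fun h => absurd h hx⟩
  choose B hB using hB
  obtain ⟨M₂s, hM₂s⟩ := exists_nat_ge ((N : ℝ) / ((m - s) ^ 2 * δ₁))
  set Ms := max (max M₁₀ M₀s) (max M₂s 1) with hMs
  obtain ⟨f, hf1, hf2⟩ := exists_seq_of_forall_finset_exists
    (fun x : ℕ × ℤ => Ms ≤ x.1 ∧ Sm TrueCase (Lam W) N x.1 x.2 <
      (1 / 4 - ε) * (1 - η) * x.1 * PW W ^ 2 * VW W N) (fun x y => B x ≤ y.1) (by
    intro F _
    obtain ⟨M, hM, u, hu⟩ := hcon (max Ms (F.sup B))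
    refine ⟨(M, u), ⟨(le_max_left _ _).trans hM, hu⟩, fun x hx => ?_⟩
    exact (le_sup (f := B) hx).trans ((le_max_right _ _).trans hM))
  -- masses
  set S : Fin n → ℝ := fun i => ∑ v ∈ XX W N (f i).1 (f i).2, 1 / (v.1 : ℝ) with hS
  have hMi : ∀ i : Fin n, Ms ≤ (f i).1 := fun i => (hf1 i).1
  have hMpos : ∀ i : Fin n, (0 : ℝ) < (f i).1 := fun i => by
    have h5 : 1 ≤ (f i).1 := ((le_max_right _ _).trans (le_max_right _ _)).trans (hMi i)
    exact_mod_cast h5
  have hSi : ∀ i : Fin n, (m - s) * (f i).1 ≤ S i := fun i =>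
    hMS (f i).1 (((le_max_right _ _).trans (le_max_left _ _)).trans (hMi i)) (f i).2
  have hSpos : ∀ i : Fin n, 0 < S i := fun i => lt_of_lt_of_le (mul_pos hms (hMpos i)) (hSi i)
  obtain ⟨i, j, hij, hp⟩ := hPR (fun i => XX W N (f i).1 (f i).2)
    (fun i v => 1 / (v.1 : ℝ) / S i) (by
      intro i v hv
      refine ⟨(MN_XX_mem hv).2.2, ?_⟩
      have := (hSpos i).le
      positivity) (by
      intro i
      rw [← sum_div]
      exact div_self (hSpos i).ne') (by
      intro i j _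
      have hj2 : (M₂s : ℝ) ≤ (f j).1 := by
        exact_mod_cast ((le_max_left M₂s 1).trans (le_max_right _ _)).trans (hMi j)
      have hkey : (N : ℝ) ≤ (m - s) ^ 2 * δ₁ * (f j).1 := by
        have h5 := hM₂s.trans hj2
        rwa [div_le_iff₀ (by positivity), mul_comm] at h5
      calc ∑ v ∈ XX W N (f i).1 (f i).2 ∩ XX W N (f j).1 (f j).2,
            1 / (v.1 : ℝ) / S i * (1 / (v.1 : ℝ) / S j)
          ≤ ∑ v ∈ XX W N (f i).1 (f i).2, 1 / (S i * S j) := by
            refine (sum_le_sum_of_subset_of_nonneg inter_subset_left ?_).trans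
              (sum_le_sum fun v hv => ?_)
            · intro v _ _
              have := (hSpos i).le
              have := (hSpos j).le
              positivity
            · have hv1 : (1 : ℝ) ≤ v.1 := by exact_mod_cast (MN_XX_mem hv).1.1
              have h5 : 1 / (v.1 : ℝ) ≤ 1 := by
                rw [div_le_one (by linarith)]; exact hv1
              have h6 : 0 ≤ 1 / (v.1 : ℝ) := by positivity
              have h7 : 1 / (v.1 : ℝ) * (1 / (v.1 : ℝ)) ≤ 1 := by nlinarith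
              have h8 : 1 / (v.1 : ℝ) / S i * (1 / (v.1 : ℝ) / S j) =
                  (1 / (v.1 : ℝ) * (1 / (v.1 : ℝ))) * (1 / (S i * S j)) := by
                have := (hSpos i).ne'
                have := (hSpos j).ne'
                field_simp
              rw [h8]
              have h9 : 0 ≤ 1 / (S i * S j) := by
                have := hSpos i
                have := hSpos j
                positivity
              nlinarith
        _ = #(XX W N (f i).1 (f i).2) * (1 / (S i * S j)) := by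
            rw [sum_const, nsmul_eq_mul]
        _ ≤ N * (f i).1 * (1 / (((m - s) * (f i).1) * ((m - s) * (f j).1))) := by
            refine mul_le_mul (MN_XX_card W N (f i).1 (f i).2) ?_ ?_ (by positivity)
            · refine one_div_le_one_div_of_le ?_ ?_
              · have := hMpos i
                have := hMpos j
                positivity
              · have h5 := mul_pos hms (hMpos i)
                have h6 := mul_pos hms (hMpos j)
                exact mul_le_mul (hSi i) (hSi j) h6.le (hSpos i).le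
            · have := hSpos i
              have := hSpos j
              positivity
        _ ≤ δ₁ := by
            have h5 := hMpos i
            have h6 := hMpos j
            have h7 : N * ((f i).1 : ℝ) * (1 / (((m - s) * (f i).1) * ((m - s) * (f j).1))) =
                N / ((m - s) ^ 2 * (f j).1) := by
              field_simp
            rw [h7, div_le_iff₀ (by positivity)]
            linarith)
  -- the pair
  have hpu := hB (f i) (((le_max_left _ _).trans (le_max_left _ _)).trans (hMi i)) (f j).1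
    (hf2 i j hij) (f j).2
  have hlow : (1 / 4 - ε / 2) * (S i * S j) ≤
      ∑ v ∈ XX W N (f i).1 (f i).2, ∑ w ∈ XX W N (f j).1 (f j).2,
        if v ≠ w ∧ Rl v w then 1 / ((v.1 : ℝ) * w.1) else 0 := by
    have h5 : (∑ v ∈ XX W N (f i).1 (f i).2, ∑ w ∈ XX W N (f j).1 (f j).2,
        if v ≠ w ∧ Rl v w then 1 / (v.1 : ℝ) / S i * (1 / (w.1 : ℝ) / S j) else 0) * (S i * S j) =
        ∑ v ∈ XX W N (f i).1 (f i).2, ∑ w ∈ XX W N (f j).1 (f j).2,
        if v ≠ w ∧ Rl v w then 1 / ((v.1 : ℝ) * w.1) else 0 := by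
      rw [sum_mul]
      refine sum_congr rfl fun v hv => ?_
      rw [sum_mul]
      refine sum_congr rfl fun w hw => ?_
      have h6 := (hSpos i).ne'
      have h7 := (hSpos j).ne'
      have h8 : (v.1 : ℝ) ≠ 0 := by
        have : (1 : ℝ) ≤ v.1 := by exact_mod_cast (MN_XX_mem hv).1.1
        linarith
      have h9 : (w.1 : ℝ) ≠ 0 := by
        have : (1 : ℝ) ≤ w.1 := by exact_mod_cast (MN_XX_mem hw).1.1
        linarith
      split_ifs
      · field_simp
      · rw [zero_mul]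
    rw [← h5]
    exact mul_le_mul_of_nonneg_right hp (mul_pos (hSpos i) (hSpos j)).le
  have hMi' := hMpos i
  have hMj' := hMpos j
  have hSS : (m - s) ^ 2 * ((f i).1 * (f j).1) ≤ S i * S j := by
    have h5 := mul_pos hms (hMpos i)
    have h6 := mul_pos hms (hMpos j)
    calc (m - s) ^ 2 * ((f i).1 * (f j).1) = ((m - s) * (f i).1) * ((m - s) * (f j).1) := by ring
      _ ≤ S i * S j := mul_le_mul (hSi i) (hSi j) h6.le (hSpos i).le
  have hZ : 0 ≤ ZZ N := by
    unfold ZZ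
    exact sum_nonneg fun g _ => by positivity
  have hbad := (hf1 j).2
  have hfin : (1 / 4 - ε / 2) * (m - s) ^ 2 * ((f i).1 * (f j).1) ≤
      ((1 + s) * ((1 / 4 - ε) * ((1 - η) * R)) + s) * ((f i).1 * (f j).1) := by
    calc (1 / 4 - ε / 2) * (m - s) ^ 2 * ((f i).1 * (f j).1)
        = (1 / 4 - ε / 2) * ((m - s) ^ 2 * ((f i).1 * (f j).1)) := by ring
      _ ≤ (1 / 4 - ε / 2) * (S i * S j) := mul_le_mul_of_nonneg_left hSS (by linarith)
      _ ≤ (1 + s) * ZZ N * (f i).1 * Sm TrueCase (Lam W) N (f j).1 (f j).2 +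
          s * (f i).1 * (f j).1 := hlow.trans hpu
      _ ≤ (1 + s) * ZZ N * (f i).1 * ((1 / 4 - ε) * (1 - η) * (f j).1 * PW W ^ 2 * VW W N) +
          s * (f i).1 * (f j).1 := by
            have h5 : 0 ≤ (1 + s) * ZZ N * (f i).1 := by positivity
            have h6 := mul_le_mul_of_nonneg_left hbad.le h5
            linarith
      _ = _ := by rw [hRdef]; ring
  have hfin2 := le_of_mul_le_mul_right hfin (mul_pos hMi' hMj')
  exact MN_num hε hε4 hm hR' hs hs1 hs2 hs3 hfin2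

end Pool.Agent.helper11.TX
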