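import Pool.Agent.helper11.TX.FN
import Pool.Agent.helper11.TX.MN
import Pool.Agent.helper11.TX.MQ
import Pool.Agent.helper12.TX.PA
import Pool.Agent.helper17.TX.GC
import Pool.Agent.helper23.TX.CR
import Pool.Agent.helper28.TX.TY
import Pool.Agent.helper4.TX.GR
import Pool.Agent.helper42.TX.PU
import Pool.Agent.helper43.TX.CN
import Pool.Agent.helper49.TX.VL
import Pool.Agent.helper60.TX.PR
import Pool.Agent.helper63.TX.LA
import Pool.Agent.helper65.TX.EE
import Pool.Agent.helper90.TX.CL
import Pool.Agent.helper90.TX.HC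
import Pool.Agent.helper90.TX.MP
import Pool.Agent.helper90.TX.NU
import Pool.Agent.helper91.TX.MS

/-!
# TX (MP_bf63dc_nt): assembly
-/

namespace Pool.Agent.helper11.TX

theorem MN_holds : MN_stmt :=
  MN (PR GR) (PU (CN CR) GC) (MS CR) (MQ GC (VL GC))

theorem FN_holds : FN_stmt :=
  FN MN_holds (HC (LA CR) CL EE MP (VL GC)) (PA CR) (TY (VL GC)) NU CL

end Pool.Agent.helper11.TX
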