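import Pool.Agent.helper11.TX.Spec2

/-!
# TX part 2 (MP_bf63dc_nt): the fraction of the Hardy-Littlewood mass (row DF)
-/

namespace Pool.Agent.helper11.TX

open Finset Pool.Agent.helper85.FC

theorem DF_adm {a b : ℕ} {c : ℤ} (h : TrueCase a b c) : Adm a b c :=
  ⟨h.1, h.2.1, h.2.2.1, h.2.2.2.1, h.2.2.2.2.1, h.2.2.2.2.2.1, h.2.2.2.2.2.2.1⟩

theorem DF_SS_pos (a b : ℕ) (c : ℤ) : 0 < SS a b c := by
  unfold SS
  refine prod_pos fun l hl => ?_
  have h1 := mem_filter.1 hl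
  have h2 := (Nat.prime_of_mem_primeFactors h1.1).two_le
  have h3 : 3 ≤ l := by
    have := h1.2
    omega
  have h4 : (3 : ℝ) ≤ l := by exact_mod_cast h3
  exact div_pos (by linarith) (by linarith)

theorem DF_cW_pos (W : ℕ) : 0 < cW W := by
  unfold cW
  refine mul_pos (by norm_num) (prod_pos fun l hl => ?_)
  have h1 := mem_filter.1 hl
  have h2 := (Nat.prime_of_mem_primeFactors h1.1).two_le
  have h3 : 3 ≤ l := by
    have := h1.2
    omega
  have h4 : (3 : ℝ) ≤ l := by exact_mod_cast h3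
  have h5 : 2 / (l : ℝ) < 1 := by
    rw [div_lt_one (by linarith)]
    linarith
  linarith

theorem DF_Er_ge (w n : ℕ) (hw : 2 ≤ w) : 1 ≤ Er w n := by
  unfold Er
  refine Finset.one_le_prod fun l hl => ?_
  have h1 := (mem_filter.1 hl).2
  have h3 : 3 ≤ l := by omega
  have h4 : (3 : ℝ) ≤ l := by exact_mod_cast h3
  have h5 : 0 ≤ 1 / ((l : ℝ) - 2) := div_nonneg zero_le_one (by linarith)
  linarith

theorem DF_Lam_nonneg (W a b : ℕ) (c : ℤ) : 0 ≤ Lam W a b c := by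
  unfold Lam
  refine prod_nonneg fun l hl => ?_
  have hl2 : (2 : ℝ) ≤ l := by exact_mod_cast (Nat.prime_of_mem_primeFactors hl).two_le
  have hl0 : (0 : ℝ) < l := by linarith
  split_ifs
  · have : 1 / (l : ℝ) ≤ 1 := by
      rw [div_le_one hl0]; linarith
    linarith
  · have : 2 / (l : ℝ) ≤ 1 := by
      rw [div_le_one hl0]; linarith
    linarith

theorem DF_CL_le (h6 : CL_stmt) {w a b : ℕ} {c : ℤ} (hw : 2 ≤ w) (h : Adm a b c) :
    Lam (primorial w) a b c ≤ cW (primorial w) * SS a b c := by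
  rw [h6 w a b c hw h]
  have h1 := DF_Er_ge w a hw
  have h2 := DF_Er_ge w b hw
  have h3 := DF_Er_ge w c.natAbs hw
  have h4 : 1 ≤ Er w a * Er w b * Er w c.natAbs :=
    one_le_mul_of_one_le_of_one_le (one_le_mul_of_one_le_of_one_le h1 h2) h3
  exact le_mul_of_one_le_right (DF_Lam_nonneg _ _ _ _) h4

theorem DF_PW_pos (W : ℕ) : 0 < PW W := by
  unfold PW
  refine prod_pos fun l hl => ?_
  have hl2 : (2 : ℝ) ≤ l := by exact_mod_cast (Nat.prime_of_mem_primeFactors hl).two_le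
  have hl0 : (0 : ℝ) < l := by linarith
  have : 1 / (l : ℝ) ≤ 1 / 2 := one_div_le_one_div_of_le (by norm_num) hl2
  linarith

theorem DF_yy {w s : ℕ} (hs : s ≤ w) : yy (primorial w) s = 1 := by
  unfold yy
  rw [filter_eq_empty_iff.2, prod_empty]
  intro l hl
  rw [not_not]
  have h1 := Nat.prime_of_mem_primeFactors hl
  have h2 : l ≤ s := Nat.le_of_mem_primeFactors hl
  unfold primorial
  exact dvd_prod_of_mem (fun p : ℕ => p) (mem_filter.2 ⟨mem_range.2 (by omega), h1⟩)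

theorem DF_DD_ge {A T L X k : ℝ} (hX : 0 < X) (hL : 0 ≤ L) (hT : 0 ≤ T) (hTA : T ≤ A)
    (h1 : L ≤ k * T) (h2 : k * A ≤ X) : L / X ≤ T / A := by
  rcases (hT.trans hTA).eq_or_lt with h | h
  · have hT0 : T = 0 := le_antisymm (h ▸ hTA) hT
    have hL0 : L = 0 := le_antisymm (by rw [hT0, mul_zero] at h1; exact h1) hL
    rw [hL0, hT0, zero_div, zero_div]
  · rw [div_le_div_iff₀ hX h]
    calc L * A ≤ k * T * A := mul_le_mul_of_nonneg_right h1 h.le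
      _ = T * (k * A) := by ring
      _ ≤ T * X := mul_le_mul_of_nonneg_left h2 hT

theorem DF_Tw_nonneg {P : ℕ → ℕ → ℤ → Prop} {G : ℕ → ℕ → ℤ → ℝ} (hG : ∀ a b c, 0 ≤ G a b c)
    (a b M : ℕ) (u : ℤ) : 0 ≤ Tw P G a b M u := by
  classical
  unfold Tw
  exact sum_nonneg fun c _ => hG a b c

/-- **Row DF.** -/
theorem DF (h1 : HP_stmt) (h6 : CL_stmt) : DF_stmt := by
  classical
  intro κ m hκ0 hκ1 hm hNG S h hS ε hε
  have hDD : ∀ a b M u, 0 ≤ DD a b M u := fun a b M u => div_nonneg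
    (DF_Tw_nonneg (fun a b c => (DF_SS_pos a b c).le) a b M u)
    (DF_Tw_nonneg (fun a b c => (DF_SS_pos a b c).le) a b M u)
  by_cases hεκ : κ ≤ ε
  · refine ⟨0, fun M _ u _ => ?_⟩
    refine (mul_nonpos_of_nonpos_of_nonneg (by linarith) (sq_nonneg _)).trans ?_
    exact sum_nonneg fun s hs => sum_nonneg fun t ht =>
      mul_nonneg (mul_nonneg (hS s hs).2 (hS t ht).2) (hDD _ _ _ _)
  push Not at hεκ
  -- the parameter `w`
  have hpos : ∀ s ∈ S, ∀ t ∈ S, 0 < t / Nat.gcd s t ∧ 0 < s / Nat.gcd s t := by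
    intro s hs t ht
    have h1 := (hS s hs).1
    have h2 := (hS t ht).1
    have hg : 0 < Nat.gcd s t := Nat.gcd_pos_of_pos_left _ h1
    exact ⟨Nat.div_pos (Nat.le_of_dvd h2 (Nat.gcd_dvd_right _ _)) hg,
      Nat.div_pos (Nat.le_of_dvd h1 (Nat.gcd_dvd_left _ _)) hg⟩
  have hw0 : ∀ p : ℕ × ℕ, ∃ w₀ : ℕ, p.1 ∈ S → p.2 ∈ S → ∀ w : ℕ, w₀ ≤ w → ∃ M₀ : ℕ, ∀ M : ℕ, M₀ ≤ M →
      ∀ u : ℤ, |u| ≤ M → cW (primorial w) *
        Tw Adm SS (p.2 / Nat.gcd p.1 p.2) (p.1 / Nat.gcd p.1 p.2) M u ≤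
        (1 + ε / 4) * (((p.1 / Nat.gcd p.1 p.2 : ℕ) : ℝ) * M) * PW (primorial w) ^ 2 := by
    intro p
    by_cases hp : p.1 ∈ S ∧ p.2 ∈ S
    · obtain ⟨w₀, h⟩ := h1 _ _ (hpos _ hp.1 _ hp.2).1 (hpos _ hp.1 _ hp.2).2 (ε / 4) (by linarith)
      exact ⟨w₀, fun _ _ => h⟩
    · exact ⟨0, fun h1 h2 => absurd ⟨h1, h2⟩ hp⟩
  choose w₀ hw₀ using hw0
  set w := max (max 5 (S.sup id)) ((S ×ˢ S).sup w₀) with hw
  have hw5 : 5 ≤ w := (le_max_left _ _).trans (le_max_left _ _)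
  have hwS : ∀ s ∈ S, s ≤ w := fun s hs =>
    (le_sup (f := id) hs).trans ((le_max_right _ _).trans (le_max_left _ _))
  have hww : ∀ p ∈ S ×ˢ S, w₀ p ≤ w := fun p hp => (le_sup (f := w₀) hp).trans (le_max_right _ _)
  set W := primorial w with hW
  have hW0 : 0 < W := primorial_pos w
  have h30 : 30 ∣ W := by
    refine dvd_trans ?_ (primorial_dvd_primorial hw5)
    decide
  obtain ⟨M₁, hM₁⟩ := hNG W hW0 (hm.trans h30) S h hS (ε / 4) (by linarith)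
  have hM0 : ∀ p : ℕ × ℕ, ∃ M₀ : ℕ, p ∈ S ×ˢ S → ∀ M : ℕ, M₀ ≤ M →
      ∀ u : ℤ, |u| ≤ M → cW W *
        Tw Adm SS (p.2 / Nat.gcd p.1 p.2) (p.1 / Nat.gcd p.1 p.2) M u ≤
        (1 + ε / 4) * (((p.1 / Nat.gcd p.1 p.2 : ℕ) : ℝ) * M) * PW W ^ 2 := by
    intro p
    by_cases hp : p ∈ S ×ˢ S
    · have hp' := mem_product.1 hp
      obtain ⟨M₀, h⟩ := hw₀ p hp'.1 hp'.2 w (hww p hp)
      exact ⟨M₀, fun _ => h⟩
    · exact ⟨0, fun h => absurd h hp⟩
  choose M₀ hM₀ using hM0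
  refine ⟨max (max M₁ 1) ((S ×ˢ S).sup M₀), fun M hM u hu => ?_⟩
  have hMM1 : M₁ ≤ M := ((le_max_left _ _).trans (le_max_left _ _)).trans hM
  have hM1 : 1 ≤ M := ((le_max_right _ _).trans (le_max_left _ _)).trans hM
  have hMr : (0 : ℝ) < M := by exact_mod_cast hM1
  have hPW := DF_PW_pos W
  have hN := hM₁ M hMM1 u
  have hyy : ∑ s ∈ S, h s * yy W s = ∑ s ∈ S, h s :=
    sum_congr rfl fun s hs => by rw [hW, DF_yy (hwS s hs), mul_one]
  rw [hyy] at hN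
  -- the pairs
  set X := (1 + ε / 4) * M * PW W ^ 2 with hX
  have hX0 : 0 < X := by positivity
  have hpair : GG W S h M u / X ≤
      ∑ s ∈ S, ∑ t ∈ S, h s * h t * DD (t / Nat.gcd s t) (s / Nat.gcd s t) M u := by
    unfold GG
    rw [sum_div]
    refine sum_le_sum fun s hs => ?_
    rw [sum_div]
    refine sum_le_sum fun t ht => ?_
    have hb : (0 : ℝ) < ((s / Nat.gcd s t : ℕ) : ℝ) := by exact_mod_cast (hpos s hs t ht).2
    have hle : M₀ (s, t) ≤ M :=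
      ((le_sup (f := M₀) (mem_product.2 ⟨hs, ht⟩ : (s, t) ∈ S ×ˢ S)).trans (le_max_right _ _)).trans hM
    have hHP := hM₀ (s, t) (mem_product.2 ⟨hs, ht⟩) M hle u hu
    simp only at hHP
    have hL : Tw TrueCase (Lam W) (t / Nat.gcd s t) (s / Nat.gcd s t) M u ≤
        cW W * Tw TrueCase SS (t / Nat.gcd s t) (s / Nat.gcd s t) M u := by
      unfold Tw
      rw [mul_sum]
      exact sum_le_sum fun c hc => DF_CL_le h6 (by omega) (DF_adm (mem_filter.1 hc).2)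
    have hTA : Tw TrueCase SS (t / Nat.gcd s t) (s / Nat.gcd s t) M u ≤
        Tw Adm SS (t / Nat.gcd s t) (s / Nat.gcd s t) M u := by
      unfold Tw
      refine sum_le_sum_of_subset_of_nonneg (fun c hc => ?_) fun c _ _ => (DF_SS_pos _ _ _).le
      rw [mem_filter] at hc ⊢
      exact ⟨hc.1, DF_adm hc.2⟩
    have hD := DF_DD_ge (X := ((s / Nat.gcd s t : ℕ) : ℝ) * X) (mul_pos hb hX0)
      (DF_Tw_nonneg (fun a b c => DF_Lam_nonneg W a b c) _ _ M u)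
      (DF_Tw_nonneg (fun a b c => (DF_SS_pos a b c).le) _ _ M u) hTA hL (by
        refine hHP.trans (le_of_eq ?_)
        rw [hX]; ring)
    have hhh : 0 ≤ h s * h t := mul_nonneg (hS s hs).2 (hS t ht).2
    have e : h s * h t / ((s / Nat.gcd s t : ℕ) : ℝ) *
        Tw TrueCase (Lam W) (t / Nat.gcd s t) (s / Nat.gcd s t) M u / X =
        h s * h t * (Tw TrueCase (Lam W) (t / Nat.gcd s t) (s / Nat.gcd s t) M u /
          (((s / Nat.gcd s t : ℕ) : ℝ) * X)) := by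
      field_simp
    rw [e]
    exact mul_le_mul_of_nonneg_left hD hhh
  refine le_trans ?_ hpair
  rw [le_div_iff₀ hX0]
  refine le_trans ?_ hN
  have e1 : (κ - ε) * (1 + ε / 4) ≤ κ - ε / 4 := by nlinarith
  have e2 : 0 ≤ (M : ℝ) * PW W ^ 2 * (∑ s ∈ S, h s) ^ 2 := by positivity
  calc (κ - ε) * (∑ s ∈ S, h s) ^ 2 * X
      = (κ - ε) * (1 + ε / 4) * (M * PW W ^ 2 * (∑ s ∈ S, h s) ^ 2) := by rw [hX]; ring
    _ ≤ (κ - ε / 4) * (M * PW W ^ 2 * (∑ s ∈ S, h s) ^ 2) := mul_le_mul_of_nonneg_right e1 e2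
    _ = _ := by ring

end Pool.Agent.helper11.TX
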