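import Pool.Agent.helper11.TX.Spec2

/-!
# TX part 2 (MP_bf63dc_nt): every finite set of coefficients (row NG)
-/

namespace Pool.Agent.helper11.TX

open Finset Pool.Agent.helper85.FC

theorem NG_Lam_nonneg (W a b : ℕ) (c : ℤ) : 0 ≤ Lam W a b c := by
  unfold Lam
  refine prod_nonneg fun l hl => ?_
  have hl2 : (2 : ℝ) ≤ l := by exact_mod_cast (Nat.prime_of_mem_primeFactors hl).two_le
  have hl0 : (0 : ℝ) < l := by linarith
  split_ifs
  · have : 1 / (l : ℝ) ≤ 1 := by
      rw [div_le_one hl0]; linarith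
    linarith
  · have : 2 / (l : ℝ) ≤ 1 := by
      rw [div_le_one hl0]; linarith
    linarith

theorem NG_GG_nonneg (W : ℕ) {S : Finset ℕ} {h : ℕ → ℝ} (hS : ∀ s ∈ S, 0 < s ∧ 0 ≤ h s) (M : ℕ)
    (u : ℤ) : 0 ≤ GG W S h M u := by
  classical
  unfold GG
  refine sum_nonneg fun s hs => sum_nonneg fun t ht => mul_nonneg ?_ ?_
  · exact div_nonneg (mul_nonneg (hS s hs).2 (hS t ht).2) (by positivity)
  · unfold Tw
    exact sum_nonneg fun c _ => NG_Lam_nonneg W _ _ c

theorem NG_PW_pos (W : ℕ) : 0 < PW W := by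
  unfold PW
  refine prod_pos fun l hl => ?_
  have hl2 : (2 : ℝ) ≤ l := by exact_mod_cast (Nat.prime_of_mem_primeFactors hl).two_le
  have hl0 : (0 : ℝ) < l := by linarith
  have : 1 / (l : ℝ) ≤ 1 / 2 := one_div_le_one_div_of_le (by norm_num) hl2
  linarith

theorem NG_yy_pos (W n : ℕ) : 0 < yy W n := by
  unfold yy
  refine prod_pos fun l hl => ?_
  have hl2 : (2 : ℝ) ≤ l := by
    exact_mod_cast (Nat.prime_of_mem_primeFactors (mem_filter.1 hl).1).two_le
  have hl0 : (0 : ℝ) < l := by linarith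
  have : 1 / (l : ℝ) ≤ 1 / 2 := one_div_le_one_div_of_le (by norm_num) hl2
  linarith

theorem NG_XS_mem {W M : ℕ} {S : Finset ℕ} {u : ℤ} {v : ℕ × ℤ} (h : v ∈ XS W S M u) :
    v.1 ∈ S ∧ v.2 ∈ Ioc u (u + M) ∧ Vx W v := by
  classical
  unfold XS at h
  rw [mem_filter, mem_product] at h
  exact ⟨h.1.1, h.1.2, h.2⟩

theorem NG_XS_card (W M : ℕ) (S : Finset ℕ) (u : ℤ) : (#(XS W S M u) : ℝ) ≤ #S * M := by
  classical
  unfold XS
  have h1 : #((S ×ˢ (Ioc u (u + M))).filter fun v => Vx W v) ≤ #S * M := by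
    refine (card_filter_le _ _).trans ?_
    rw [card_product, Int.card_Ioc]
    have : (u + (M : ℤ) - u).toNat = M := by omega
    rw [this]
  exact_mod_cast h1

/-- The numerical contradiction. -/
theorem NG_num {ε m κ s : ℝ} (hε : 0 < ε) (hεκ : ε < κ) (hκ : κ ≤ 1) (hm : 0 < m) (hs : 0 < s)
    (hs1 : s ≤ ε / 8 * m) (hs2 : s ≤ ε / 8 * m ^ 2) (hs3 : s ≤ ε / 8)
    (h : (κ - ε / 2) * (m - s) ^ 2 ≤ (1 + s) * ((κ - ε) * m ^ 2) + s) : False := by
  have hm2 : 0 < m ^ 2 := by positivity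
  have h6 : (1 - ε / 4) * m ^ 2 ≤ (m - s) ^ 2 := by
    nlinarith [mul_le_mul_of_nonneg_left hs1 hm.le]
  have h7 : (κ - ε / 2) * ((1 - ε / 4) * m ^ 2) ≤ (κ - ε / 2) * (m - s) ^ 2 :=
    mul_le_mul_of_nonneg_left h6 (by linarith)
  have h8 : (1 + s) * ((κ - ε) * m ^ 2) ≤ (1 + ε / 8) * ((κ - ε) * m ^ 2) :=
    mul_le_mul_of_nonneg_right (by linarith) (mul_nonneg (by linarith) hm2.le)
  have h11 : (κ - ε / 2) * ((1 - ε / 4) * m ^ 2) ≤
      (1 + ε / 8) * ((κ - ε) * m ^ 2) + ε / 8 * m ^ 2 := by linarith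
  have h12 : (κ - ε / 2) * (1 - ε / 4) - (1 + ε / 8) * (κ - ε) - ε / 8 ≤ 0 := by
    by_contra hcon
    push Not at hcon
    have := mul_pos hcon hm2
    nlinarith
  nlinarith

/-- **Row NG.** -/
theorem NG (h2 : PG_stmt) (h3 : MG_stmt) : NG_stmt := by
  classical
  intro κ k hκ0 hκ1 h2k h1 W hW hkW S h hSh ε hε
  by_cases hε4 : κ ≤ ε
  · refine ⟨0, fun M _ u => ?_⟩
    have hB : (κ - ε) * M * (PW W * ∑ s ∈ S, h s * yy W s) ^ 2 =
        (κ - ε) * (M * (PW W * ∑ s ∈ S, h s * yy W s) ^ 2) := by ring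
    rw [hB]
    exact (mul_nonpos_of_nonpos_of_nonneg (by linarith) (by positivity)).trans
      (NG_GG_nonneg W hSh M u)
  push Not at hε4
  have h0m : 0 ≤ PW W * ∑ s ∈ S, h s * yy W s :=
    mul_nonneg (NG_PW_pos W).le (sum_nonneg fun s hs => mul_nonneg (hSh s hs).2 (NG_yy_pos W s).le)
  rcases h0m.eq_or_lt with hm0 | hm
  · refine ⟨0, fun M _ u => ?_⟩
    rw [← hm0]
    refine le_trans (le_of_eq ?_) (NG_GG_nonneg W hSh M u)
    ring
  obtain ⟨n, δ₁, hδ₁, hPR⟩ := h1 W hW hkW (ε / 2) (by linarith)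
  set m := PW W * ∑ s ∈ S, h s * yy W s with hmdef
  set s := min (ε / 8 * m) (min (ε / 8 * m ^ 2) (ε / 8)) with hsdef
  have hs : 0 < s := by
    rw [hsdef]
    refine lt_min (by positivity) (lt_min (by positivity) (by positivity))
  have hs1 : s ≤ ε / 8 * m := min_le_left _ _
  have hs2 : s ≤ ε / 8 * m ^ 2 := (min_le_right _ _).trans (min_le_left _ _)
  have hs3 : s ≤ ε / 8 := (min_le_right _ _).trans (min_le_right _ _)
  have hms : 0 < m - s := by
    have : ε / 8 * m < m := by nlinarith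
    linarith
  -- a bound for the weights
  obtain ⟨H, hH0, hH⟩ : ∃ H : ℝ, 0 ≤ H ∧ ∀ s ∈ S, h s ≤ H :=
    ⟨∑ s ∈ S, h s, sum_nonneg fun s hs => (hSh s hs).2, fun s hs =>
      single_le_sum (f := h) (fun t ht => (hSh t ht).2) hs⟩
  obtain ⟨M₁₀, hPU⟩ := h2 W hW (h2k.trans hkW) S h hSh s hs
  obtain ⟨M₀s, hMS⟩ := h3 W hW S h hSh s hs
  by_contra hcon
  push Not at hcon
  have hB : ∀ x : ℕ × ℤ, ∃ B : ℕ, M₁₀ ≤ x.1 → ∀ M₂ : ℕ, B ≤ M₂ → ∀ u₂ : ℤ,
      (∑ v ∈ XS W S x.1 x.2, ∑ w ∈ XS W S M₂ u₂, if v ≠ w ∧ Rl v w then h v.1 * h w.1 else 0)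
      ≤ (1 + s) * x.1 * GG W S h M₂ u₂ + s * x.1 * M₂ := by
    intro x
    by_cases hx : M₁₀ ≤ x.1
    · obtain ⟨B, hB⟩ := hPU x.1 hx x.2
      exact ⟨B, fun _ => hB⟩
    · exact ⟨0, fun h => absurd h hx⟩
  choose B hB using hB
  obtain ⟨M₂s, hM₂s⟩ := exists_nat_ge (((#S : ℝ) * H ^ 2) / ((m - s) ^ 2 * δ₁))
  set Ms := max (max M₁₀ M₀s) (max M₂s 1) with hMs
  obtain ⟨f, hf1, hf2⟩ := exists_seq_of_forall_finset_exists
    (fun x : ℕ × ℤ => Ms ≤ x.1 ∧ GG W S h x.1 x.2 < (κ - ε) * x.1 * m ^ 2)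
    (fun x y => B x ≤ y.1) (by
    intro F _
    obtain ⟨M, hM, u, hu⟩ := hcon (max Ms (F.sup B))
    refine ⟨(M, u), ⟨(le_max_left _ _).trans hM, hu⟩, fun x hx => ?_⟩
    exact (le_sup (f := B) hx).trans ((le_max_right _ _).trans hM))
  -- masses
  set Z : Fin n → ℝ := fun i => ∑ v ∈ XS W S (f i).1 (f i).2, h v.1 with hZdef
  have hMi : ∀ i : Fin n, Ms ≤ (f i).1 := fun i => (hf1 i).1
  have hMpos : ∀ i : Fin n, (0 : ℝ) < (f i).1 := fun i => by
    have h5 : 1 ≤ (f i).1 := ((le_max_right _ _).trans (le_max_right _ _)).trans (hMi i)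
    exact_mod_cast h5
  have hSi : ∀ i : Fin n, (m - s) * (f i).1 ≤ Z i := fun i =>
    hMS (f i).1 (((le_max_right _ _).trans (le_max_left _ _)).trans (hMi i)) (f i).2
  have hSpos : ∀ i : Fin n, 0 < Z i := fun i => lt_of_lt_of_le (mul_pos hms (hMpos i)) (hSi i)
  obtain ⟨i, j, hij, hp⟩ := hPR (fun i => XS W S (f i).1 (f i).2)
    (fun i v => h v.1 / Z i) (by
      intro i v hv
      exact ⟨(NG_XS_mem hv).2.2, div_nonneg (hSh _ (NG_XS_mem hv).1).2 (hSpos i).le⟩) (by
      intro i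
      rw [← sum_div]
      exact div_self (hSpos i).ne') (by
      intro i j _
      have hj2 : (M₂s : ℝ) ≤ (f j).1 := by
        exact_mod_cast ((le_max_left M₂s 1).trans (le_max_right _ _)).trans (hMi j)
      have hkey : (#S : ℝ) * H ^ 2 ≤ (m - s) ^ 2 * δ₁ * (f j).1 := by
        have h5 := hM₂s.trans hj2
        rw [div_le_iff₀ (by positivity)] at h5
        linarith
      calc ∑ v ∈ XS W S (f i).1 (f i).2 ∩ XS W S (f j).1 (f j).2,
            h v.1 / Z i * (h v.1 / Z j)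
          ≤ ∑ v ∈ XS W S (f i).1 (f i).2, H ^ 2 * (1 / (Z i * Z j)) := by
            refine (sum_le_sum_of_subset_of_nonneg inter_subset_left ?_).trans
              (sum_le_sum fun v hv => ?_)
            · intro v hv _
              have h5 := (hSh _ (NG_XS_mem hv).1).2
              exact mul_nonneg (div_nonneg h5 (hSpos i).le) (div_nonneg h5 (hSpos j).le)
            · have h5 := (hSh _ (NG_XS_mem hv).1).2
              have h6 := hH _ (NG_XS_mem hv).1
              have h7 : h v.1 ^ 2 ≤ H ^ 2 := pow_le_pow_left₀ h5 h6 2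
              have h8 : h v.1 / Z i * (h v.1 / Z j) = h v.1 ^ 2 * (1 / (Z i * Z j)) := by
                have := (hSpos i).ne'
                have := (hSpos j).ne'
                field_simp
              rw [h8]
              have h9 : 0 ≤ 1 / (Z i * Z j) := by
                have := hSpos i
                have := hSpos j
                positivity
              exact mul_le_mul_of_nonneg_right h7 h9
        _ = #(XS W S (f i).1 (f i).2) * (H ^ 2 * (1 / (Z i * Z j))) := by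
            rw [sum_const, nsmul_eq_mul]
        _ ≤ #S * (f i).1 * (H ^ 2 * (1 / (((m - s) * (f i).1) * ((m - s) * (f j).1)))) := by
            refine mul_le_mul (NG_XS_card W (f i).1 S (f i).2) ?_ ?_ (by positivity)
            · refine mul_le_mul_of_nonneg_left (one_div_le_one_div_of_le ?_ ?_) (by positivity)
              · have := hMpos i
                have := hMpos j
                positivity
              · have h5 := mul_pos hms (hMpos i)
                have h6 := mul_pos hms (hMpos j)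
                exact mul_le_mul (hSi i) (hSi j) h6.le (hSpos i).le
            · have := hSpos i
              have := hSpos j
              positivity
        _ ≤ δ₁ := by
            have h5 := hMpos i
            have h6 := hMpos j
            have h7 : #S * ((f i).1 : ℝ) * (H ^ 2 * (1 / (((m - s) * (f i).1) *
                ((m - s) * (f j).1)))) = (#S * H ^ 2) / ((m - s) ^ 2 * (f j).1) := by
              field_simp
            rw [h7, div_le_iff₀ (by positivity)]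
            linarith)
  -- the pair
  have hpu := hB (f i) (((le_max_left _ _).trans (le_max_left _ _)).trans (hMi i)) (f j).1
    (hf2 i j hij) (f j).2
  have hlow : (κ - ε / 2) * (Z i * Z j) ≤
      ∑ v ∈ XS W S (f i).1 (f i).2, ∑ w ∈ XS W S (f j).1 (f j).2,
        if v ≠ w ∧ Rl v w then h v.1 * h w.1 else 0 := by
    have h5 : (∑ v ∈ XS W S (f i).1 (f i).2, ∑ w ∈ XS W S (f j).1 (f j).2,
        if v ≠ w ∧ Rl v w then h v.1 / Z i * (h w.1 / Z j) else 0) * (Z i * Z j) =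
        ∑ v ∈ XS W S (f i).1 (f i).2, ∑ w ∈ XS W S (f j).1 (f j).2,
        if v ≠ w ∧ Rl v w then h v.1 * h w.1 else 0 := by
      rw [sum_mul]
      refine sum_congr rfl fun v hv => ?_
      rw [sum_mul]
      refine sum_congr rfl fun w hw => ?_
      have h6 := (hSpos i).ne'
      have h7 := (hSpos j).ne'
      split_ifs
      · field_simp
      · rw [zero_mul]
    rw [← h5]
    exact mul_le_mul_of_nonneg_right hp (mul_pos (hSpos i) (hSpos j)).le
  have hMi' := hMpos i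
  have hMj' := hMpos j
  have hSS : (m - s) ^ 2 * ((f i).1 * (f j).1) ≤ Z i * Z j := by
    have h5 := mul_pos hms (hMpos i)
    have h6 := mul_pos hms (hMpos j)
    calc (m - s) ^ 2 * ((f i).1 * (f j).1) = ((m - s) * (f i).1) * ((m - s) * (f j).1) := by ring
      _ ≤ Z i * Z j := mul_le_mul (hSi i) (hSi j) h6.le (hSpos i).le
  have hbad := (hf1 j).2
  have hfin : (κ - ε / 2) * (m - s) ^ 2 * ((f i).1 * (f j).1) ≤
      ((1 + s) * ((κ - ε) * m ^ 2) + s) * ((f i).1 * (f j).1) := by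
    calc (κ - ε / 2) * (m - s) ^ 2 * ((f i).1 * (f j).1)
        = (κ - ε / 2) * ((m - s) ^ 2 * ((f i).1 * (f j).1)) := by ring
      _ ≤ (κ - ε / 2) * (Z i * Z j) := mul_le_mul_of_nonneg_left hSS (by linarith)
      _ ≤ (1 + s) * (f i).1 * GG W S h (f j).1 (f j).2 + s * (f i).1 * (f j).1 := hlow.trans hpu
      _ ≤ (1 + s) * (f i).1 * ((κ - ε) * (f j).1 * m ^ 2) + s * (f i).1 * (f j).1 := by
            have h5 : 0 ≤ (1 + s) * ((f i).1 : ℝ) := by positivity
            have h6 := mul_le_mul_of_nonneg_left hbad.le h5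
            linarith
      _ = _ := by ring
  have hfin2 := le_of_mul_le_mul_right hfin (mul_pos hMi' hMj')
  exact NG_num hε hε4 hκ1 hm hs hs1 hs2 hs3 hfin2

end Pool.Agent.helper11.TX
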