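import Pool.Agent.helper11.TX.Spec2
import Pool.Agent.helper11.TX.MQ

/-!
# TX part 2: row NY
-/

namespace Pool.Agent.helper11.TX

open Finset

theorem NY_yy (s : ℕ) : 1 - ∑ l ∈ s.primeFactors with 7 ≤ l, 1 / (l : ℝ) ≤ yy 30 s := by
  have h1 := MQ_prod_ge (s := s.primeFactors.filter fun l => ¬ l ∣ 30)
    fun l hl => Nat.prime_of_mem_primeFactors (mem_filter.1 hl).1
  refine le_trans ?_ h1
  have h2 : ∑ l ∈ s.primeFactors with ¬ l ∣ 30, 1 / (l : ℝ) ≤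
      ∑ l ∈ s.primeFactors with 7 ≤ l, 1 / (l : ℝ) := by
    refine sum_le_sum_of_subset_of_nonneg (fun l hl => ?_) fun l _ _ => by positivity
    rw [mem_filter] at hl ⊢
    refine ⟨hl.1, ?_⟩
    by_contra hcon
    push Not at hcon
    have hp := Nat.prime_of_mem_primeFactors hl.1
    have h2 := hp.two_le
    interval_cases l
    · exact hl.2 (by decide)
    · exact hl.2 (by decide)
    · exact absurd hp (by decide)
    · exact hl.2 (by decide)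
    · exact absurd hp (by decide)
  linarith

/-- **Row NY.** -/
theorem NYx (h1 : NS_stmt) (h2 : NT_stmt) : NY_stmt := by
  classical
  have hlim : ∀ᶠ N : ℕ in Filter.atTop, Real.log (N : ℝ) ≤ (N : ℝ) / 10000 := by
    have h := Real.isLittleO_log_id_atTop.def (c := 1 / 10000) (by norm_num)
    have h' := tendsto_natCast_atTop_atTop.eventually h
    filter_upwards [h', Filter.eventually_ge_atTop 1] with N hN hN1
    have hN1' : (1 : ℝ) ≤ N := by exact_mod_cast hN1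
    simp only [id] at hN
    rw [Real.norm_of_nonneg (Real.log_nonneg hN1'), Real.norm_of_nonneg (by linarith)] at hN
    linarith
  obtain ⟨N₀, hN₀⟩ := Filter.eventually_atTop.1 hlim
  refine ⟨max N₀ 100000, fun N hN => ?_⟩
  have hlog := hN₀ N ((le_max_left _ _).trans hN)
  have hNbig : (100000 : ℝ) ≤ N := by exact_mod_cast (le_max_right _ _).trans hN
  have hs := (h1.1 N).1
  have ht := (h2 N).2
  have e1 : ∑ s ∈ S6 N, (s : ℝ) * (1 - ∑ l ∈ s.primeFactors with 7 ≤ l, 1 / (l : ℝ)) ≤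
      ∑ s ∈ S6 N, (s : ℝ) * yy 30 s :=
    sum_le_sum fun s _ => mul_le_mul_of_nonneg_left (NY_yy s) (Nat.cast_nonneg s)
  refine le_trans ?_ e1
  have e2 : ∑ s ∈ S6 N, (s : ℝ) * (1 - ∑ l ∈ s.primeFactors with 7 ≤ l, 1 / (l : ℝ)) =
      ∑ s ∈ S6 N, (s : ℝ) - ∑ s ∈ S6 N, ∑ l ∈ s.primeFactors with 7 ≤ l, (s : ℝ) * (1 / (l : ℝ)) := by
    rw [← sum_sub_distrib]
    refine sum_congr rfl fun s _ => ?_
    rw [mul_sub, mul_one, mul_sum]
  rw [e2]
  have e3 : ∑ s ∈ S6 N, ∑ l ∈ s.primeFactors with 7 ≤ l, (s : ℝ) * (1 / (l : ℝ)) =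
      ∑ l ∈ Icc 7 N with l.Prime, ∑ s ∈ S6 N with l ∣ s, (s : ℝ) * (1 / (l : ℝ)) := by
    refine sum_comm' fun s l => ?_
    simp only [S6, mem_filter, mem_Icc, Nat.mem_primeFactors]
    constructor
    · rintro ⟨⟨⟨hs1, hs2⟩, hs3⟩, ⟨hl, hd, _⟩, h7⟩
      exact ⟨⟨⟨⟨hs1, hs2⟩, hs3⟩, hd⟩, ⟨h7, (Nat.le_of_dvd hs1 hd).trans hs2⟩, hl⟩
    · rintro ⟨⟨⟨⟨hs1, hs2⟩, hs3⟩, hd⟩, ⟨h7, _⟩, hl⟩
      exact ⟨⟨⟨hs1, hs2⟩, hs3⟩, ⟨hl, hd, by omega⟩, h7⟩
  have e4 : ∑ l ∈ Icc 7 N with l.Prime, ∑ s ∈ S6 N with l ∣ s, (s : ℝ) * (1 / (l : ℝ)) ≤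
      (N : ℝ) ^ 2 / 6 * (2 / 25) + N * (1 + Real.log N) := by
    have e5 : ∀ l ∈ (Icc 7 N).filter Nat.Prime,
        ∑ s ∈ S6 N with l ∣ s, (s : ℝ) * (1 / (l : ℝ)) ≤
          (N : ℝ) ^ 2 / 6 * (1 / (l : ℝ) ^ 2) + N * (1 / (l : ℝ)) := by
      intro l hl
      rw [mem_filter, mem_Icc] at hl
      have hl0 : (0 : ℝ) < l := by exact_mod_cast hl.2.pos
      rw [← sum_mul]
      have h3 := mul_le_mul_of_nonneg_right (h1.2 N l (by omega) hl.2)
        (show (0 : ℝ) ≤ 1 / l by positivity)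
      refine h3.trans (le_of_eq ?_)
      field_simp
    refine (sum_le_sum e5).trans ?_
    rw [sum_add_distrib, ← mul_sum, ← mul_sum]
    have e6 : ∑ l ∈ Icc 7 N with l.Prime, 1 / (l : ℝ) ≤ 1 + Real.log N := by
      have h3 : ∑ l ∈ Icc 7 N with l.Prime, 1 / (l : ℝ) ≤ MQ_H N := by
        unfold MQ_H
        refine sum_le_sum_of_subset_of_nonneg (fun l hl => ?_) fun l _ _ => by positivity
        rw [mem_filter, mem_Icc] at hl
        rw [mem_Icc]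
        omega
      exact h3.trans (MQ_H_le N)
    have e7 := mul_le_mul_of_nonneg_left ht (show (0 : ℝ) ≤ (N : ℝ) ^ 2 / 6 by positivity)
    have e8 := mul_le_mul_of_nonneg_left e6 (show (0 : ℝ) ≤ (N : ℝ) by positivity)
    linarith
  rw [e3]
  nlinarith

end Pool.Agent.helper11.TX
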