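import Pool.Agent.helper11.TX.Spec

/-!
# Project TX, part 2 (MP_bf63dc_nt): a quarter for every finite set of coefficients

RULES as in `Pool.Agent.helper11.TX.Spec` (all rows there are proved and on main, see
`Pool.Agent.helper11.TX.All` for their names): every row is a `Prop` below, please prove
`theorem Pool.Agent.helper11.TX.XX (h : YY_stmt) ... : XX_stmt` in `Pool/Agent/<seat>/TX/XX.lean` (import this
file; the files of proved rows may be imported too).  Auxiliary lemmas with names beginning with `XX_`.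
Never change this file.

THE THEOREM.  For a finite set `S` of positive integers and weights `h ≥ 0` the average over the pairs
`(s, t)` of the proportion (Hardy-Littlewood mass) of the good `c` for the ratio `t : s` is at least `1/4`.
Vertices are `(s, x)`, `s ∈ S`, `x` in a window, prime to `s W`.
-/

namespace Pool.Agent.helper11.TX

open Finset Pool.Agent.helper85.FC

open Classical in
/-- The sum of `G a b c` over the `c` with `P a b c` and `b u < c ≤ b (u + M)`. -/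
noncomputable def Tw (P : ℕ → ℕ → ℤ → Prop) (G : ℕ → ℕ → ℤ → ℝ) (a b M : ℕ) (u : ℤ) : ℝ :=
  ∑ c ∈ Ioc ((b : ℤ) * u) ((b : ℤ) * (u + M)) with P a b c, G a b c

open Classical in
/-- The vertices `(s, x)` with `s ∈ S`, `u < x ≤ u + M`. -/
noncomputable def XS (W : ℕ) (S : Finset ℕ) (M : ℕ) (u : ℤ) : Finset (ℕ × ℤ) :=
  (S ×ˢ (Ioc u (u + M))).filter fun v => Vx W v

/-- The sum over `s, t ∈ S`, `a = t/g`, `b = s/g`, `g = gcd(s, t)`, of `h s * h t` times the mean value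
`(1/b) ∑ Lam W a b c` over the good `c`. -/
noncomputable def GG (W : ℕ) (S : Finset ℕ) (h : ℕ → ℝ) (M : ℕ) (u : ℤ) : ℝ :=
  ∑ s ∈ S, ∑ t ∈ S, h s * h t / ((s / Nat.gcd s t : ℕ) : ℝ) *
    Tw TrueCase (Lam W) (t / Nat.gcd s t) (s / Nat.gcd s t) M u

/-- The proportion of the good `c` in the window with the Hardy-Littlewood weights. -/
noncomputable def DD (a b M : ℕ) (u : ℤ) : ℝ := Tw TrueCase SS a b M u / Tw Adm SS a b M u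

/-- Row PG (medium).  As `PU` (Pool/Agent/helper42/TX/PU.lean; its lemmas `PU_T`, `PU_B` can be used, `PU_tc` with
`2 ∣ W` in place of `30 ∣ W` has the same proof, GC is not needed): with `A v w = h v.1 * h w.1` if the conditions hold and `c = b y - a x` is in the window, the sum
over `x`, `y` for fixed `s`, `t` is `h s * h t * T a b`, `T a b ≤ (M₁/b + 2 W) Tw TrueCase (Lam W) a b M₂ u₂ ≤
(1 + δ) (M₁/b) Tw` if `M₁ ≥ 2 W max S/δ`; the pairs with `c` outside the window: for given `s, t, x` at most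
`2 N R` values `y` (`PU_B`, `N = max S`, `R = |u₁| + M₁`), total `≤ (∑ h)^2 M₁ 2 N R ≤ δ M₁ M₂` for large `M₂`. -/
def PG_stmt : Prop := ∀ W : ℕ, 0 < W → 2 ∣ W → ∀ (S : Finset ℕ) (h : ℕ → ℝ),
  (∀ s ∈ S, 0 < s ∧ 0 ≤ h s) → ∀ δ : ℝ, 0 < δ → ∃ M₁₀ : ℕ,
  ∀ M₁ : ℕ, M₁₀ ≤ M₁ → ∀ u₁ : ℤ, ∃ M₂₀ : ℕ, ∀ M₂ : ℕ, M₂₀ ≤ M₂ → ∀ u₂ : ℤ,
  (∑ v ∈ XS W S M₁ u₁, ∑ w ∈ XS W S M₂ u₂, open Classical in
    if v ≠ w ∧ Rl v w then h v.1 * h w.1 else 0) ≤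
    (1 + δ) * M₁ * GG W S h M₂ u₂ + δ * M₁ * M₂

/-- Row MG (short).  As `MS` (Pool/Agent/helper91/TX/MS.lean, lemma `MS_count` there): for every `s ∈ S` the number
of the `x` is `≥ M PW W yy W s - N W`, `N = max S`. -/
def MG_stmt : Prop := ∀ W : ℕ, 0 < W → ∀ (S : Finset ℕ) (h : ℕ → ℝ),
  (∀ s ∈ S, 0 < s ∧ 0 ≤ h s) → ∀ δ : ℝ, 0 < δ → ∃ M₀ : ℕ, ∀ M : ℕ, M₀ ≤ M → ∀ u : ℤ,
  (PW W * ∑ s ∈ S, h s * yy W s - δ) * M ≤ ∑ v ∈ XS W S M u, h v.1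

/-- The conclusion of PR with `κ` in place of `1/4` for all `W` divisible by `m` (`PR_stmt = PRk (1/4) 30`). -/
def PRk (κ : ℝ) (m : ℕ) : Prop := ∀ W : ℕ, 0 < W → m ∣ W → ∀ ε : ℝ, 0 < ε → ∃ (n : ℕ) (δ : ℝ), 0 < δ ∧
  ∀ (X : Fin n → Finset (ℕ × ℤ)) (p : Fin n → ℕ × ℤ → ℝ),
  (∀ i, ∀ v ∈ X i, Vx W v ∧ 0 ≤ p i v) → (∀ i, ∑ v ∈ X i, p i v = 1) →
  (∀ i j, i ≠ j → ∑ v ∈ X i ∩ X j, p i v * p j v ≤ δ) →
  ∃ i j, i < j ∧ κ - ε ≤ ∑ v ∈ X i, ∑ w ∈ X j, open Classical in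
    if v ≠ w ∧ Rl v w then p i v * p j w else 0

/-- A fraction `κ` for every finite set `S` with weights `h`, for all `W` divisible by `m`. -/
def NGk (κ : ℝ) (m : ℕ) : Prop := ∀ W : ℕ, 0 < W → m ∣ W → ∀ (S : Finset ℕ) (h : ℕ → ℝ),
  (∀ s ∈ S, 0 < s ∧ 0 ≤ h s) → ∀ ε : ℝ, 0 < ε → ∃ M₀ : ℕ, ∀ M : ℕ, M₀ ≤ M → ∀ u : ℤ,
  (κ - ε) * M * (PW W * ∑ s ∈ S, h s * yy W s) ^ 2 ≤ GG W S h M u

/-- Row NG (medium).  From PG, MG, as `MN` (Pool/Agent/helper11/TX/MN.lean). -/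
def NG_stmt : Prop := ∀ (κ : ℝ) (m : ℕ), 0 ≤ κ → κ ≤ 1 → 2 ∣ m → PRk κ m → NGk κ m

/-- Row LP (short).  For one pair `a, b`: `LA_inner` in Pool/Agent/helper63/TX/LA.lean (private there: copy the
lemmas before it under new names) with `N = max a b`; `yy ≤ 1`, `b ≥ 1`. -/
def LP_stmt : Prop := ∀ W a b : ℕ, 0 < W → 0 < a → 0 < b → ∀ δ : ℝ, 0 < δ → ∃ M₀ : ℕ,
  ∀ M : ℕ, M₀ ≤ M → ∀ u : ℤ, Tw Adm (Lam W) a b M u ≤ (1 + δ) * (b * M) * PW W ^ 2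

/-- Row HP (short, medium).  From LP, CL, MP and the lemma `EE_sumc` in Pool/Agent/helper65/TX/EE.lean; compare `HC`
in Pool/Agent/helper90/TX/HC.lean (`HC_log_sq` etc.).  For `w ≥ max(a, b)`: `Er w a = Er w b = 1`, so
`cW * SS = Lam * Er w c ≤ Lam + (Er w c - 1)`, the sum of `Er w c - 1` over the window is `≤ 3 b M/(w - 1)`, and
`3/(w - 1) ≤ (ε/2) PW^2` for large `w`. -/
def HP_stmt : Prop := ∀ a b : ℕ, 0 < a → 0 < b → ∀ ε : ℝ, 0 < ε → ∃ w₀ : ℕ, ∀ w : ℕ, w₀ ≤ w →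
  ∃ M₀ : ℕ, ∀ M : ℕ, M₀ ≤ M → ∀ u : ℤ, |u| ≤ M →
  cW (primorial w) * Tw Adm SS a b M u ≤ (1 + ε) * (b * M) * PW (primorial w) ^ 2

/-- A fraction `κ` of the Hardy-Littlewood mass for every finite set of coefficients. -/
def DFk (κ : ℝ) : Prop := ∀ (S : Finset ℕ) (h : ℕ → ℝ), (∀ s ∈ S, 0 < s ∧ 0 ≤ h s) →
  ∀ ε : ℝ, 0 < ε → ∃ M₀ : ℕ, ∀ M : ℕ, M₀ ≤ M → ∀ u : ℤ, |u| ≤ M →
  (κ - ε) * (∑ s ∈ S, h s) ^ 2 ≤
    ∑ s ∈ S, ∑ t ∈ S, h s * h t * DD (t / Nat.gcd s t) (s / Nat.gcd s t) M u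

/-- Row DF (medium).  From HP, CL.  `w` larger than 5, all `s ∈ S` and the `w₀` of HP (with `ε' = ε/4`) for all
pairs `(t/g, s/g)`; `W = primorial w`, `yy W s = 1`; `M` larger than all the `M₀`.  `cW * Tw TrueCase SS ≥
Tw TrueCase (Lam W)` (CL, `Er ≥ 1`), so `DD ≥ Tw TrueCase (Lam W)/((1 + ε') b M PW^2)` (also if the
denominator `Tw Adm SS` is 0, both sides are then 0), and the hypothesis.  If `ε ≥ κ` the left side is `≤ 0`. -/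
def DF_stmt : Prop := ∀ (κ : ℝ) (m : ℕ), 0 ≤ κ → κ ≤ 1 → m ∣ 30 → NGk κ m → DFk κ

/-! ## Differences of primes -/

open Classical in
/-- Row PO (short).  From the hypothesis with `S = {1}`, `h = 1`, `W = 30`: `(1/4 - ε') (16/225) M ≤ ∑ Lam 30 1 1 c` over the good `c`
in `(u, u + M]`; such `c` are even and `Lam 30 1 1 c ≤ 1/5 + (1/15) [30 ∣ c]`; at most `M/30 + 1` of the `c` are
divisible by 30.  So the number is at least `5 ((1/4 - ε') (16/225) M - (M/30 + 1)/15) = (7/90 - (16/45) ε') M - 1/3`. -/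
def PO_stmt : Prop := NGk (1 / 4) 30 → ∀ ε : ℝ, 0 < ε → ∃ M₀ : ℕ, ∀ M : ℕ, M₀ ≤ M → ∀ u : ℤ,
  (7 / 90 - ε) * M ≤ (#{c ∈ Ioc u (u + M) | TrueCase 1 1 c} : ℝ)

/-! ## A positive proportion of all triples in boxes -/

/-- The integers prime to 6 in `[1, N]`. -/
def S6 (N : ℕ) : Finset ℕ := {s ∈ Icc 1 N | Nat.Coprime s 6}

/-- Row NS (short).  For `N = 6 k` the first sum is `6 k^2 = N^2/6`; for `N = 6 k + r` the difference to `N^2/6` is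
`4k + 5/6`, `2k + 1/3`, `-1/2`, `-2k - 5/3`, `2k + 11/6` for `r = 1, ..., 5` (or induction from `N` to `N + 6`).
The elements of `S6 N` divisible by `l` are `l m`, `m ∈ S6 (N / l)`. -/
def NS_stmt : Prop := (∀ N : ℕ, (N : ℝ) ^ 2 / 6 - N ≤ ∑ s ∈ S6 N, (s : ℝ) ∧
  ∑ s ∈ S6 N, (s : ℝ) ≤ (N : ℝ) ^ 2 / 6 + N) ∧
  ∀ N l : ℕ, 5 ≤ l → l.Prime → ∑ s ∈ S6 N with l ∣ s, (s : ℝ) ≤ (N : ℝ) ^ 2 / (6 * l) + N

/-- Row NT (short).  `1/25 + 1/49 + 1/121 + 1/169 + 1/289 + 1/361 + 1/529 + 1/28 ≤ 3/25`,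
`∑_{n ≥ 29} 1/n^2 ≤ 1/28`. -/
def NT_stmt : Prop := ∀ N : ℕ, ∑ l ∈ Icc 5 N with l.Prime, 1 / (l : ℝ) ^ 2 ≤ 3 / 25 ∧
  ∑ l ∈ Icc 7 N with l.Prime, 1 / (l : ℝ) ^ 2 ≤ 2 / 25

/-- Row NY (short, medium).  From NS, NT.  `yy 30 s ≥ 1 - ∑_{l ∣ s, l ∤ 30} 1/l` (`MQ_prod_ge` in
Pool/Agent/helper11/TX/MQ.lean), a prime `l ∤ 30` is `≥ 7`, so the sum is at least
`N^2/6 - N - ∑_{7 ≤ l ≤ N} (1/l) (N^2/(6l) + N) ≥ (N^2/6) (23/25) - N - N (1 + log N)`, and `23/150 > 0.153`. -/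
def NY_stmt : Prop := ∃ N₀ : ℕ, ∀ N : ℕ, N₀ ≤ N →
  153 / 1000 * (N : ℝ) ^ 2 ≤ ∑ s ∈ S6 N, (s : ℝ) * yy 30 s

/-- Row NP (short, medium).  From NS, NT.  Two elements of `S6 N` that are not coprime have a common prime factor
`l`, `5 ≤ l ≤ N`, so the sum is at most `∑_l (N^2/(6l) + N)^2 ≤ (N^4/36) (3/25) + (N^3/3) (1 + log N) + N^3`. -/
def NP_stmt : Prop := ∃ N₀ : ℕ, ∀ N : ℕ, N₀ ≤ N →
  ∑ s ∈ S6 N, ∑ t ∈ S6 N with ¬ Nat.Coprime s t, (s : ℝ) * t ≤ (N : ℝ) ^ 4 / 299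

open Classical in
/-- Row NB (medium).  From the hypothesis NGk with `W = 30`, `S = S6 N`, `h s = s`, and LP, NY, NP, NU.  Let `M' = M/N` (floor), `v = 0` or
`v = -M'`, and `(M', v)` the parameters of the window.  NGk, NY: `GG ≥ (1/4 - ε) M' (16/225) (0.153 N^2)^2`.  The pairs
`(s, t)` that are not coprime contribute at most `(1 + ε) M' (16/225) N^4/299` (`TrueCase` implies `Adm`; LP for each
of the finitely many pairs `(t/g, s/g)`: `s t (g/s) (1 + ε) (s/g) M' PW^2`).  For coprime `s`, `t` the term is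
`t ∑ Lam 30 t s c ≤ N (4/15) #{c}` (NU), and all `c` have the wanted sign and `0 < |c| ≤ s M' ≤ M`.  So the number of
triples is at least `(15/(4 N)) (16/225) M' N^4 ((1/4 - ε) 0.023409 - (1 + ε)/299)`, about `N^2 (N M')/1496`, and
`N M' > M - N`. -/
def NB_stmt : Prop := NGk (1 / 4) 30 → ∃ N₀ : ℕ, ∀ N : ℕ, N₀ ≤ N → ∃ M₀ : ℕ, ∀ M : ℕ, M₀ ≤ M →
  (N : ℝ) ^ 2 * M / 1600 ≤
    (#{t ∈ Icc 1 N ×ˢ Icc 1 N ×ˢ Icc 1 M | TrueCase t.1 t.2.1 (t.2.2 : ℤ)} : ℝ) ∧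
  (N : ℝ) ^ 2 * M / 1600 ≤
    (#{t ∈ Icc 1 N ×ˢ Icc 1 N ×ˢ Icc 1 M | TrueCase t.1 t.2.1 (-(t.2.2 : ℤ))} : ℝ)

end Pool.Agent.helper11.TX
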