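import Pool.Agent.helper11.TX.All
import Pool.Agent.helper11.TX.Spec2
import Pool.Agent.helper11.TX.NG
import Pool.Agent.helper11.TX.DF
import Pool.Agent.helper11.TX.NYx
import Pool.Agent.helper57.TX.PG
import Pool.Agent.helper9.TX.MG
import Pool.Agent.helper56.TX.LP
import Pool.Agent.helper8.TX.HP
import Pool.Agent.helper16.TX.PO
import Pool.Agent.helper85.TX.NS
import Pool.Agent.helper98.TX.NT
import Pool.Agent.helper39.TX.NP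
import Pool.Agent.helper5.TX.NB

/-!
# TX part 2 (MP_bf63dc_nt): assembly
-/

namespace Pool.Agent.helper11.TX

open Finset Pool.Agent.helper85.FC

theorem NGk_holds : NGk (1 / 4) 30 :=
  NG (PG (CN CR)) (MG CR) (1 / 4) 30 (by norm_num) (by norm_num) (by norm_num) (PR GR)

theorem DF_holds : DFk (1 / 4) :=
  DF (HP (LP CR) CL MP) CL (1 / 4) 30 (by norm_num) (by norm_num) (dvd_refl 30) NGk_holds

open Classical in
theorem PO_holds : ∀ ε : ℝ, 0 < ε → ∃ M₀ : ℕ, ∀ M : ℕ, M₀ ≤ M → ∀ u : ℤ,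
    (7 / 90 - ε) * M ≤ (#{c ∈ Ioc u (u + M) | TrueCase 1 1 c} : ℝ) :=
  PO NGk_holds

open Classical in
theorem NB_holds : ∃ N₀ : ℕ, ∀ N : ℕ, N₀ ≤ N → ∃ M₀ : ℕ, ∀ M : ℕ, M₀ ≤ M →
    (N : ℝ) ^ 2 * M / 1600 ≤
      (#{t ∈ Icc 1 N ×ˢ Icc 1 N ×ˢ Icc 1 M | TrueCase t.1 t.2.1 (t.2.2 : ℤ)} : ℝ) ∧
    (N : ℝ) ^ 2 * M / 1600 ≤
      (#{t ∈ Icc 1 N ×ˢ Icc 1 N ×ˢ Icc 1 M | TrueCase t.1 t.2.1 (-(t.2.2 : ℤ))} : ℝ) :=
  NB (LP CR) (NYx NS NT) (NP NS NT) NU NGk_holds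

end Pool.Agent.helper11.TX
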