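import Pool.Agent.helper85.FC.CaseDefs
import Mathlib

/-!
# Project TX (MP_bf63dc_nt): one sixth of all admissible triples (a, b, c)

RULES.  Every row is a `Prop` below.  Please prove `theorem Pool.Agent.helper11.TX.XX (h : YY_stmt) ... : XX_stmt`
in `Pool/Agent/<seat>/TX/XX.lean` (import this file; the rows named in the docstring, or any other row, may be
hypotheses, no circles), auxiliary lemmas with names beginning with `XX_`.  Land, lock note DONE + path, one line to helper11.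
Never change this file.  If a statement is wrong tell helper11 at once.

THE PROOF.  Vertices are forms `α n - x` with `x` prime to `α W`, `30 ∣ W`.  Two of them, `v = (α, x)`,
`w = (α', y)`, `α = g b`, `α' = g a`, `gcd(a,b) = 1`: if both are prime infinitely often then
`(a, b, c)`, `c = b y - a x`, is a true case.  By the theorem on two primes in five clusters and Erdos-Stone a
quarter of the pairs of any finite set of vertices is good (GR), so for vertices chosen at random from windows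
`(u_i, u_i + M_i]` of quickly growing lengths some pair `i < j` is good with probability `≥ 1/4 - ε` (PR).  For
`i < j` the number `c` is uniform in `b (u_j, u_j + M_j]` up to the local weights `Lam W a b c` (CN, PU).
-/

namespace Pool.Agent.helper11.TX

open Finset Pool.Agent.helper85.FC

/-- The conditions of Q1. -/
def Adm (a b : ℕ) (c : ℤ) : Prop :=
  0 < a ∧ 0 < b ∧ c ≠ 0 ∧ Nat.Coprime a b ∧ IsCoprime (a : ℤ) c ∧ IsCoprime (b : ℤ) c ∧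
    ¬ (Odd a ∧ Odd b ∧ Odd c)

/-- The singular series of `a p - b q = c` without its constant factor: the product of
`(l - 1)/(l - 2)` over the primes `l ∣ a b c`, `l ≠ 2`. -/
noncomputable def SS (a b : ℕ) (c : ℤ) : ℝ :=
  ∏ l ∈ (a * b * c.natAbs).primeFactors with l ≠ 2, ((l : ℝ) - 1) / ((l : ℝ) - 2)

open Classical in
/-- The sum of `G a b c` over the triples with `P a b c`, `a, b ≤ N` and `b u < c ≤ b (u + M)`, with the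
weights `1/(a b^2)`. -/
noncomputable def Sm (P : ℕ → ℕ → ℤ → Prop) (G : ℕ → ℕ → ℤ → ℝ) (N M : ℕ) (u : ℤ) : ℝ :=
  ∑ a ∈ Icc 1 N, ∑ b ∈ Icc 1 N, 1 / ((a : ℝ) * (b : ℝ) ^ 2) *
    ∑ c ∈ Ioc ((b : ℤ) * u) ((b : ℤ) * (u + M)) with P a b c, G a b c

/-- The product over the primes `l ∣ W` of `1 - 1/l` if `l ∣ a b c`, of `1 - 2/l` if not. -/
noncomputable def Lam (W a b : ℕ) (c : ℤ) : ℝ :=
  ∏ l ∈ W.primeFactors, if (l : ℤ) ∣ a * b * c then 1 - 1 / (l : ℝ) else 1 - 2 / (l : ℝ)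

/-- The product over the primes `l ∣ n`, `l ∤ W` of `1 - 1/l`. -/
noncomputable def yy (W n : ℕ) : ℝ := ∏ l ∈ n.primeFactors with ¬ l ∣ W, (1 - 1 / (l : ℝ))

/-- The product over the primes `l ∣ W` of `1 - 1/l`. -/
noncomputable def PW (W : ℕ) : ℝ := ∏ l ∈ W.primeFactors, (1 - 1 / (l : ℝ))

/-- The sum over coprime `a, b ≤ N` of `yy W (a b)/(a b)`. -/
noncomputable def VW (W N : ℕ) : ℝ :=
  ∑ a ∈ Icc 1 N, ∑ b ∈ Icc 1 N with Nat.Coprime a b, yy W (a * b) / ((a : ℝ) * b)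

/-- The sum of `1/g^2`, `g ≤ N`. -/
noncomputable def ZZ (N : ℕ) : ℝ := ∑ g ∈ Icc 1 N, 1 / (g : ℝ) ^ 2

/-- The sum over `α ≤ N` of `1/α` times the density of the integers prime to `α W`. -/
noncomputable def mm (W N : ℕ) : ℝ := PW W * ∑ α ∈ Icc 1 N, yy W α / (α : ℝ)

/-- Vertices: `v = (α, x)` stands for the form `α n - x`. -/
def Vx (W : ℕ) (v : ℕ × ℤ) : Prop := 0 < v.1 ∧ IsCoprime (v.1 : ℤ) v.2 ∧ IsCoprime v.2 (W : ℤ)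

/-- Both forms are prime infinitely often. -/
def Rl (v w : ℕ × ℤ) : Prop :=
  {n : ℕ | ((v.1 : ℤ) * n - v.2).toNat.Prime ∧ ((w.1 : ℤ) * n - w.2).toNat.Prime}.Infinite

open Classical in
/-- The vertices with `α ≤ N`, `u < x ≤ u + M`. -/
noncomputable def XX (W N M : ℕ) (u : ℤ) : Finset (ℕ × ℤ) :=
  ((Icc 1 N) ×ˢ (Ioc u (u + M))).filter fun v => Vx W v

/-- The sum of `1/l^3` over the primes `l ≤ G` not dividing `W`. -/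
noncomputable def T3 (W G : ℕ) : ℝ := ∑ l ∈ Icc 1 G with l.Prime ∧ ¬ l ∣ W, 1 / (l : ℝ) ^ 3

/-- `1/2` times the product over the primes `l ∣ W`, `l ≠ 2` of `1 - 2/l`. -/
noncomputable def cW (W : ℕ) : ℝ := 1 / 2 * ∏ l ∈ W.primeFactors with l ≠ 2, (1 - 2 / (l : ℝ))

/-- The product over the primes `l ∣ n`, `l > w` of `1 + 1/(l - 2)`. -/
noncomputable def Er (w n : ℕ) : ℝ := ∏ l ∈ n.primeFactors with w < l, (1 + 1 / ((l : ℝ) - 2))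

/-! ## General tools -/

/-- Row CR (medium).  Sums of products of local functions over intervals.  The sum over any `D = ∏ l`
consecutive integers equals `∏_l ∑_{r < l} f l r` (induction on `P`: if `l ∉ P`, `D` prime to `l`, then
`c ↦ (c mod D, c mod l)` is a bijection of `D l` consecutive integers; or sum over the `l` blocks of length `D`
after replacing the interval by `range (D l)`, `c = D s + r`, where for fixed `r` the numbers `D s + r`,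
`s < l`, run over all classes mod `l`).  All terms are `≥ 0` and `⌊L/D⌋` full blocks fit in the interval,
`⌊L/D⌋ + 1` blocks cover it. -/
def CR_stmt : Prop := ∀ (P : Finset ℕ) (f : ℕ → ℤ → ℝ), (∀ l ∈ P, l.Prime) →
  (∀ l ∈ P, ∀ c, 0 ≤ f l c) → (∀ l ∈ P, ∀ c k : ℤ, f l (c + l * k) = f l c) → ∀ (u : ℤ) (L : ℕ),
  ∑ c ∈ Ioc u (u + L), ∏ l ∈ P, f l c ≤
      ((L : ℝ) / (∏ l ∈ P, (l : ℝ)) + 1) * ∏ l ∈ P, ∑ r ∈ range l, f l r ∧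
  ((L : ℝ) / (∏ l ∈ P, (l : ℝ)) - 1) * ∏ l ∈ P, ∑ r ∈ range l, f l r ≤
      ∑ c ∈ Ioc u (u + L), ∏ l ∈ P, f l c

/-- Row GC (short).  Sort the pairs `(α, α')` by `g = gcd(α, α')`: `α = g a`, `α' = g b`. -/
def GC_stmt : Prop := ∀ (N : ℕ) (F : ℕ → ℕ → ℝ),
  ∑ α ∈ Icc 1 N, ∑ α' ∈ Icc 1 N, F α α' =
    ∑ g ∈ Icc 1 N, ∑ a ∈ Icc 1 (N / g), ∑ b ∈ Icc 1 (N / g) with Nat.Coprime a b, F (g * a) (g * b)

/-! ## The graph -/

open Classical in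
/-- Row GR (medium).  From `Pool.Agent.helper85.FC.cluster_main` (helper85/FC/Main.lean; `cl` in FC/Defs.lean)
and `Pool.Agent.helper85.QC.es_quarter` (helper85/QC/ES.lean).  Let `kc` be as in `cluster_main`, `q` the product
of the primes `l ≤ 5 kc`, `l ∤ W` (all `≥ 7`), `t = kc * q ^ 2`.  `es_quarter t ε` with the symmetric relation `Rl`:
let `f : Fin 5 × Fin t → ℕ × ℤ` be injective with values in `S`.  In each of the five blocks the pigeonhole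
principle gives `kc` elements with the same class of `(α, x)` modulo `q`.  Apply `cluster_main` to these
`5 kc` forms `A n + B`, `A = α`, `B = -x`: `A > 0`; two different `(α, x)`, `(α', x')` with `gcd(α,x) = gcd(α',x') = 1`,
`α, α' > 0` are not proportional; for a prime `p ∣ W` take `n = 0`; for a prime `p ∤ W`, `p ≤ 5 kc` (so `p ≥ 7`) every
block has at most one root class modulo `p` (none if `p ∣ α`, as then `p ∤ x`), at most 5 roots and `p > 5`; for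
`p > 5 kc` every form has at most one root.  So for every `N` some `n ≥ N` makes two forms of different
blocks prime; by the pigeonhole principle one pair works for infinitely many `n`, this is `Rl`. -/
def GR_stmt : Prop := ∀ W : ℕ, 0 < W → 30 ∣ W → ∀ ε : ℝ, 0 < ε → ∃ K : ℕ, ∀ S : Finset (ℕ × ℤ),
  (∀ v ∈ S, Vx W v) →
  (1 / 4 - ε) * (#S : ℝ) ^ 2 - K * #S ≤ (#{p ∈ S ×ˢ S | p.1 ≠ p.2 ∧ Rl p.1 p.2} : ℝ)

open Classical in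
/-- Row PR (medium).  From GR (with `ε/2`, constant `K`); compare `sampling` in helper85/QC/Sampling.lean.  Let
`n ≥ 2` with `K/n ≤ ε/4` and `δ = ε/(8 n^2)`.  Choose `v_i ∈ X i` independently with the weights `p i`
(`Fintype.piFinset X`, product weights, total weight 1).  The probability that two of the `v_i` are equal
is `≤ n^2 δ`.  If they are distinct, GR for `S = {v_i}` gives `≥ ((1/4 - ε/2) n^2 - K n)/2` pairs `i < j` with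
`Rl (v_i) (v_j)` (`Rl` is symmetric).  So the sum over `i < j` of the probabilities of `v_i ≠ v_j ∧ Rl v_i v_j` is at
least `(1/4 - ε/2 - K/n) n^2/2 * (1 - n^2 δ)`, and there are `n(n-1)/2 ≤ n^2/2` pairs. -/
def PR_stmt : Prop := ∀ W : ℕ, 0 < W → 30 ∣ W → ∀ ε : ℝ, 0 < ε → ∃ (n : ℕ) (δ : ℝ), 0 < δ ∧
  ∀ (X : Fin n → Finset (ℕ × ℤ)) (p : Fin n → ℕ × ℤ → ℝ),
  (∀ i, ∀ v ∈ X i, Vx W v ∧ 0 ≤ p i v) → (∀ i, ∑ v ∈ X i, p i v = 1) →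
  (∀ i j, i ≠ j → ∑ v ∈ X i ∩ X j, p i v * p j v ≤ δ) →
  ∃ i j, i < j ∧ 1 / 4 - ε ≤ ∑ v ∈ X i, ∑ w ∈ X j, if v ≠ w ∧ Rl v w then p i v * p j w else 0

/-! ## Counting -/

open Classical in
/-- Row CN (medium).  From CR.  If there is no such `x` the left side is 0 (`Lam ≥ 0`).  Otherwise let
`b y₀ - a x₀ = c`; the integer solutions are `x = x₀ + b k`, `y = y₀ + a k`, and `u < x ≤ u + M` means that `k` is in
an interval with at most `M/b + 1` integers.  CR with `P = W.primeFactors`,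
`f l k = 1` if `l ∤ x₀ + b k` and `l ∤ y₀ + a k`, else 0.  `∑_{r<l} f l r = l (1 - 1/l)` if `l ∣ a b c`, `l (1 - 2/l)` if not:
if `l ∣ a` then `l ∤ b c`, `b y ≡ c` is never `0`, and `x ≡ 0` for one class of `k`; the same for `l ∣ b`; if
`l ∣ c`, `l ∤ a b` then `x ≡ 0` iff `y ≡ 0`, one class; if `l ∤ a b c` then two different classes. So the number is
`≤ ((M/b + 1)/D + 1) D Lam`, `D = ∏_{l ∣ W} l ≤ W`. -/
def CN_stmt : Prop := ∀ (W a b : ℕ) (c : ℤ), 0 < W → 0 < a → 0 < b → Nat.Coprime a b →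
  IsCoprime (a : ℤ) c → IsCoprime (b : ℤ) c → ∀ (u : ℤ) (M : ℕ),
  (#{x ∈ Ioc u (u + M) | IsCoprime x (W : ℤ) ∧ ∃ y : ℤ, b * y - a * x = c ∧ IsCoprime y (W : ℤ)} : ℝ) ≤
    ((M : ℝ) / b + 2 * W) * Lam W a b c

open Classical in
/-- Row PU (medium, long).  From CN, GC.  Write `v = (α, x)`, `w = (α', y)`, and GC: `α' = g a`, `α = g b`, weight
`1/(g^2 a b)`.  If `v ≠ w` and `Rl v w` then `TrueCase a b c`, `c = b y - a x`: with `p = α n - x`, `q = α' n - y` we have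
`a p - b q = c`; `c ≠ 0` (otherwise the coprime pairs `(α, x)`, `(α', y)` are proportional, hence equal);
`gcd(a,c) = gcd(a, b y) = 1` since `a ∣ α'`; the same for `b`; `x, y` are odd, so `c` is even if `a, b` are odd.
(A) The pairs with `b u₂ < c ≤ b (u₂ + M₂)`: for every `c` the number of `(x, y)` is at most the number of `x` in CN,
`≤ ((M₁/b) + 2W) Lam ≤ (1+δ) (M₁/b) Lam` if `M₁ ≥ 2 W N/δ`; the sum over `g` is at most `ZZ N`.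
(B) The other pairs: `u₂ < y ≤ u₂ + M₂` and `|b y - c| = |a x| ≤ N(|u₁| + M₁)`, so for every `x` there are at most
`2 (N (|u₁| + M₁) + 1)` values `y`; total at most `N^2 M₁ 2 (N (|u₁| + M₁) + 1) ≤ δ M₁ M₂` for large `M₂`. -/
def PU_stmt : Prop := ∀ W N : ℕ, 0 < W → 30 ∣ W → 0 < N → ∀ δ : ℝ, 0 < δ → ∃ M₁₀ : ℕ,
  ∀ M₁ : ℕ, M₁₀ ≤ M₁ → ∀ u₁ : ℤ, ∃ M₂₀ : ℕ, ∀ M₂ : ℕ, M₂₀ ≤ M₂ → ∀ u₂ : ℤ,
  (∑ v ∈ XX W N M₁ u₁, ∑ w ∈ XX W N M₂ u₂, if v ≠ w ∧ Rl v w then 1 / ((v.1 : ℝ) * w.1) else 0) ≤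
    (1 + δ) * ZZ N * M₁ * Sm TrueCase (Lam W) N M₂ u₂ + δ * M₁ * M₂

/-- Row MS (short, medium).  From CR (second part) with `P = (α W).primeFactors`, `f l x = 1` if `l ∤ x`, else 0:
for every `α ≤ N` the number of `x` is `≥ (M/D - 1) ∏ (l - 1) ≥ M ∏ (1 - 1/l) - D`, `D ≤ α W ≤ N W`, and
`∏_{l ∣ α W} (1 - 1/l) = PW W * yy W α`.  `∑ 1/α ≤ N`; `M₀ = N^2 W/δ`. -/
def MS_stmt : Prop := ∀ W N : ℕ, 0 < W → ∀ δ : ℝ, 0 < δ → ∃ M₀ : ℕ, ∀ M : ℕ, M₀ ≤ M → ∀ u : ℤ,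
  (mm W N - δ) * M ≤ ∑ v ∈ XX W N M u, 1 / (v.1 : ℝ)

/-- Row VL (medium).  From GC.  Upper bound: `0 ≤ yy ≤ 1` and `∑_{a ≤ N} 1/a ≤ 1 + log N`.  Lower bound: with
`Y = ∑_{α ≤ N} yy W α/α`: `yy W α ≥ 1 - ∑_{l ∣ α, l ∤ W} 1/l`, the primes `l ∤ W` are `≥ 7`, so
`Y ≥ H_N (1 - ∑_{n ≥ 7} 1/n^2) ≥ (5/6) H_N`, `H_N ≥ log N`.  And `Y^2 ≤ ZZ N * VW W N` (GC; `yy W (g a) ≤ yy W a`,
`yy W a * yy W b = yy W (a b)` for coprime `a, b`; the inner sums over `a, b ≤ N/g` are `≤ VW W N`), `ZZ N ≤ 2`. -/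
def VL_stmt : Prop := ∀ W N : ℕ, 0 < W → 30 ∣ W → 0 < N →
  Real.log N ^ 2 / 3 ≤ VW W N ∧ VW W N ≤ (1 + Real.log N) ^ 2

/-- Row MQ (medium).  From GC, VL.  `(∑_{α ≤ N} yy W α/α)^2` by GC, keep only `g ≤ G` and `a, b ≤ N/G`:
`yy W (g a) ≥ yy W g * yy W a`, so it is at least `Y_G * VW W (N/G)`, `Y_G = ∑_{g ≤ G} (yy W g)^2/g^2`.
`(yy W g)^2 ≥ 1 - 2 ∑_{l ∣ g, l ∤ W} 1/l`, hence `Y_G ≥ ZZ G (1 - 2 T3 W G) ≥ (1 - η) ZZ G`, and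
`ZZ N ≤ ZZ G + 1/G ≤ (1 + 1/G) ZZ G`.  `VW W N - VW W (N/G) ≤ ∑_{max(a,b) > N/G} 1/(a b) ≤ 2 (1 + log N)(2 + log G)`
(for `N ≥ 2G`), at most `δ' VW W N` for large `N` by VL. -/
def MQ_stmt : Prop := ∀ (W : ℕ) (η : ℝ), 0 < W → 30 ∣ W → 0 ≤ η → η < 1 → (∀ G, T3 W G ≤ η / 2) →
  ∀ δ : ℝ, 0 < δ → ∃ N₀ : ℕ, ∀ N : ℕ, N₀ ≤ N →
  (1 - η - δ) * ZZ N * PW W ^ 2 * VW W N ≤ mm W N ^ 2

/-- Row MN (medium; the main theorem).  From PR, PU, MS, MQ, VL.  We may assume `ε < 1/4` (else the left side is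
`≤ 0 ≤` the right side, `Lam ≥ 0`).  `ε₁ = ε/8`, `n`, `δ₁` from PR; `N ≥ N₀` from MQ with a small `δ` (and `log N ≥ 1`).
Suppose that for this `N` there are bad `(M, u)` with arbitrarily large `M`.  Choose bad `(M_i, u_i)`, `i < n`, one
after another (`exists_seq` or recursion on `i`), `M_j ≥` the `M₂₀` of PU for all `(M_i, u_i)`, `i < j`,
`≥ M₁₀`, `≥` the `M₀` of MS (with `δ₂` small depending on `N`), and large (`8/(m^2 M_j) ≤ δ₁`, `m = mm W N`,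
`S_i = ∑_{XX} 1/α ≥ (m/2) M_i`).  Weights `p i v = (1/α)/S_i`.  Distinctness:
`∑_{v ∈ X_i ∩ X_j} p_i p_j ≤ 2 min(M_i, M_j)/(S_i S_j) ≤ 8/(m^2 max(M_i, M_j))` (`∑ 1/α^2 ≤ 2`).
PR gives `i < j` with `1/4 - ε₁ ≤ ((1+δ₂) ZZ N M_i Sm_j + δ₂ M_i M_j)/(S_i S_j) ≤ ((1+δ₂) ZZ N Θ + δ₂)/(m - δ₂)^2`,
`Θ = (1/4-ε)(1-η) PW^2 VW`, and MQ: `ZZ N Θ/m^2 ≤ (1/4-ε)(1-η)/(1-η-δ)`: a contradiction for small `δ`, `δ₂`. -/
def MN_stmt : Prop := ∀ (W : ℕ) (η : ℝ), 0 < W → 30 ∣ W → 0 ≤ η → η < 1 → (∀ G, T3 W G ≤ η / 2) →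
  ∀ ε : ℝ, 0 < ε → ∃ N₀ : ℕ, ∀ N : ℕ, N₀ ≤ N → ∃ M₀ : ℕ, ∀ M : ℕ, M₀ ≤ M → ∀ u : ℤ,
  (1 / 4 - ε) * (1 - η) * M * PW W ^ 2 * VW W N ≤ Sm TrueCase (Lam W) N M u

/-! ## Upper bounds for the sums over the admissible triples -/

/-- Row LA (medium).  From CR.  For coprime `a, b ≤ N`, `P = (a b W).primeFactors`,
`f l c = (if l ∣ W then (if l ∣ a b c then 1 - 1/l else 1 - 2/l) else 1) * (if l ∣ a b ∧ l ∣ c then 0 else 1)`; the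
product is `Lam W a b c` if `c` is prime to `a b`, else 0.  `∑_{r<l} f l r = l (1-1/l)^2` for `l ∣ W`
(`l ∣ a b`: `(l-1)(1-1/l)`; `l ∤ a b`: `(1-1/l) + (l-1)(1-2/l) = (l-1)^2/l`), `= l (1-1/l)` for `l ∣ a b`, `l ∤ W`.  So
`∑_c ≤ (b M/D + 1) D PW^2 yy W (a b)`, `D ≤ a b W ≤ N^2 W`. -/
def LA_stmt : Prop := ∀ W N : ℕ, 0 < W → ∀ δ : ℝ, 0 < δ → ∃ M₀ : ℕ, ∀ M : ℕ, M₀ ≤ M → ∀ u : ℤ,
  Sm Adm (Lam W) N M u ≤ (1 + δ) * M * PW W ^ 2 * VW W N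

/-- Row PA (medium).  From CR, as LA: `P = (2 a b).primeFactors`, `f l c = 0` if `l ∣ a b`, `l ∣ c` or (`l = 2 ∤ a b`, `2 ∤ c`),
else 1; `∑_{r<l} f l r = l - 1` for odd `l`, `= 1` for `l = 2`.  So the number of admissible `c` is at most
`(b M/D + 1) D (1/2) yy 2 (a b)`. -/
def PA_stmt : Prop := ∀ (N : ℕ) (δ : ℝ), 0 < δ → ∃ M₀ : ℕ, ∀ M : ℕ, M₀ ≤ M → ∀ u : ℤ,
  Sm Adm (fun _ _ _ => 1) N M u ≤ (1 + δ) * (M / 2) * VW 2 N

/-- Row CL (medium, short).  `(primorial w).primeFactors` = the primes `≤ w`.  For admissible `(a,b,c)`, `2 ∣ a b c`;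
`1 - 1/l = (1 - 2/l) (l-1)/(l-2)`; the primes `l > w` dividing `a b c` divide exactly one of `a`, `b`, `c`;
`(l-1)/(l-2) = 1 + 1/(l-2)`. -/
def CL_stmt : Prop := ∀ (w a b : ℕ) (c : ℤ), 2 ≤ w → Adm a b c →
  cW (primorial w) * SS a b c = Lam (primorial w) a b c * (Er w a * Er w b * Er w c.natAbs)

/-- Row EE (medium, long).  `Er w n = ∑_{d ∣ n} h(d)`, `h(d) = ∏_{l ∣ d} 1/(l-2)` for squarefree `d` with all prime
factors `> w`, `h(1) = 1`, else 0 (or bound `Er w n` by such a sum).  For every `X`: `B = ∑_{d ≤ X} h(d)/d ≤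
∏_{w < l ≤ X} (1 + 1/(l(l-2))) ≤ 1 + 6/w` (`1/(l(l-2)) ≤ 3/l^2`...).  `∑_{a ≤ N} Er w a/a ≤ B H_N`.  In the window all `c`
satisfy `|c| ≤ 2 b M`, so the number of nonzero multiples of `d` is `0` for `d > 2 b M` and `≤ b M/d + 1 ≤ 3 b M/d` for
`d ≤ 2 b M`: `∑_c (Er w |c| - 1) ≤ 3 b M (B - 1)`.  Then
`E(a)E(b)E(c) - 1 = (E(a)E(b) - 1) + E(a)E(b) (E(c) - 1)`, the sum is `≤ M H_N^2 ((B^2 - 1) + 3 (B - 1) B^2)`. -/
def EE_stmt : Prop := ∃ C : ℝ, 0 < C ∧ ∀ (w N M : ℕ) (u : ℤ), 3 ≤ w → 1 ≤ N → 1 ≤ M → |u| ≤ M →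
  ∑ a ∈ Icc 1 N, ∑ b ∈ Icc 1 N, 1 / ((a : ℝ) * (b : ℝ) ^ 2) *
    ∑ c ∈ Ioc ((b : ℤ) * u) ((b : ℤ) * (u + M)) with c ≠ 0, (Er w a * Er w b * Er w c.natAbs - 1) ≤
    C / w * M * (1 + Real.log N) ^ 2

/-- Row MP (short; Mertens).  `∏_{l ≤ w} (1 - 1/l) ≥ c/log w`.  From `sum_inv_le` (Mertens' second theorem, upper bound)
in Pool/Agent/Lib/PrimeSums.lean and `(1-t)⁻¹ ≤ exp(t + t^2)` for `t ≤ 1/2` (see `inv_one_sub_le_exp` there), or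
`TR` files of project MT (helper35/MT/TR7.lean). -/
def MP_stmt : Prop := ∃ c : ℝ, 0 < c ∧ ∀ w : ℕ, 2 ≤ w → c / Real.log w ≤ PW (primorial w)

/-- Row HC (medium).  From LA, CL, EE, MP, VL.  `cW * SS = Lam * (E E E)` on admissible triples,
`Lam ≤ 1`, `E E E ≥ 1`, so `cW * Sm Adm SS ≤ Sm Adm Lam + (C/w) M (1 + log N)^2`, and
`(C/w)(1 + log N)^2 ≤ (ε/2) PW^2 VW` for `w ≥ w₀`, `N ≥ N₀(w)`, since `PW^2 VW ≥ (c/log w)^2 (log N)^2/3`. -/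
def HC_stmt : Prop := ∀ ε : ℝ, 0 < ε → ∃ w₀ : ℕ, ∀ w : ℕ, w₀ ≤ w → ∃ N₀ : ℕ, ∀ N : ℕ, N₀ ≤ N →
  ∃ M₀ : ℕ, ∀ M : ℕ, M₀ ≤ M → ∀ u : ℤ, |u| ≤ M →
  cW (primorial w) * Sm Adm SS N M u ≤
    (1 + ε) * M * PW (primorial w) ^ 2 * VW (primorial w) N

/-- Row TY (medium).  From VL.  Let `V_{ij}(N)` be the part of `VW 30 N` with (`3 ∣ a b` iff `i = 1`), (`5 ∣ a b` iff
`j = 1`).  `VW 2 N = V_00 + (2/3) V_10 + (4/5) V_01 + (8/15) V_11 = V - (1/3) V_10 - (1/5) V_01 - (7/15) V_11`,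
`V = VW 30 N`.  Upper bounds: `a = 3^k a'` (`3 ∤ a'`), the same for `b`: `V_10(N) ≤ 2 (∑_{k≥1} 3^(-k)) V_00(N) = V_00(N)`,
`V_01 ≤ (1/2) V_00`, `V_11 ≤ (1/2) V_00`, so `V ≤ 3 V_00`.  Lower bounds (only `k ≤ K`): `V_10(N) ≥ 2 (∑_{1 ≤ k ≤ K}
3^(-k)) V_00(N/3^K)` etc., and `V_00(N) - V_00(N/Q) ≤ ∑_{max(a,b) > N/Q} 1/(a b) ≤ 2(1 + log N)(2 + log Q)` is
`≤ δ V_00(N)` for large `N` (`V_00 ≥ V/3`, VL).  So `V_10 ≥ (1-δ') V/3`, `V_01 ≥ (1-δ') V/6`, `V_11 ≥ (1-δ') V/6`,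
`VW 2 N ≤ V (1 - (1-δ')(1/9 + 1/30 + 7/90)) = V (7/9 + (2/9) δ')`. -/
def TY_stmt : Prop := ∀ ε : ℝ, 0 < ε → ∃ N₀ : ℕ, ∀ N : ℕ, N₀ ≤ N → VW 2 N ≤ (7 / 9 + ε) * VW 30 N

/-- Row NU (short, medium).  Numbers.  (3): the primes not dividing 30 are `≥ 7`:
`1/343 + 1/1331 + ∑_{n ≥ 13} 1/n^3 ≤ 1/100` (`∑_{n ≥ k} 1/n^3 ≤ 1/(2 (k-1)^2)`... `1/288`).
(4) `∑_{n > w} 1/n^3 ≤ 1/w`, a prime not dividing `primorial w` is `> w`. -/
def NU_stmt : Prop := PW 30 ^ 2 = 16 / 225 ∧ (∀ a b c, Adm a b c → Lam 30 a b c ≤ 4 / 15) ∧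
  (∀ G, T3 30 G ≤ 1 / 100) ∧
  (∀ η : ℝ, 0 < η → ∃ w₀ : ℕ, ∀ w : ℕ, w₀ ≤ w → 30 ∣ primorial w ∧ ∀ G, T3 (primorial w) G ≤ η / 2)

/-- Row FN (medium; the final statement).  From MN, HC, PA, TY, NU, CL.
First part: `w` large, `W = primorial w`, MN with small `η`, `ε'`:
`cW * Sm TrueCase SS ≥ Sm TrueCase (Lam W)` (CL, `Er ≥ 1`, `TrueCase → Adm`) `≥ (1/4-ε')(1-η) M PW^2 VW
≥ (1/4-ε')(1-η)/(1+ε') * cW * Sm Adm SS`, `cW > 0`.  (If `ε ≥ 1/4` the left side is `≤ 0`.)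
Second part: `Sm TrueCase 1 ≥ (15/4) Sm TrueCase (Lam 30) ≥ (15/4)(1/4-ε')(49/50) M (16/225) VW 30 N` (MN with `W = 30`,
`η = 1/50`) and `Sm Adm 1 ≤ (1+ε')(M/2)(7/9+ε') VW 30 N`: the quotient tends to `(6/35)(49/50) = 0.168 > 1/6`. -/
def FN_stmt : Prop := ∀ ε : ℝ, 0 < ε → ∃ N₀ : ℕ, ∀ N : ℕ, N₀ ≤ N → ∃ M₀ : ℕ, ∀ M : ℕ, M₀ ≤ M →
  (∀ u : ℤ, |u| ≤ M → (1 / 4 - ε) * Sm Adm SS N M u ≤ Sm TrueCase SS N M u) ∧
  (∀ u : ℤ, 1 / 6 * Sm Adm (fun _ _ _ => 1) N M u ≤ Sm TrueCase (fun _ _ _ => 1) N M u)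

end Pool.Agent.helper11.TX
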